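import Pool.Agent.V5helper35.PI.Ind

set_option autoImplicit false

/-! # Kaplansky's theorem on primitive PI rings, in the form needed here -/

namespace Pool.Agent.V5helper35.PI

open Matrix

/-- a maximal commuting subset is its own centralizer -/
theorem exists_self_centralizer (D : Type*) [Mul D] : ∃ T : Set D, Set.centralizer T = T := by
  obtain ⟨T, hT⟩ := zorn_subset {T : Set D | ∀ a ∈ T, ∀ b ∈ T, a * b = b * a} (by
    intro c hc hchain
    refine ⟨⋃₀ c, ?_, fun s hs => Set.subset_sUnion_of_mem hs⟩
    rintro a ⟨s, hs, ha⟩ b ⟨t, ht, hb⟩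
    rcases hchain.total hs ht with h | h
    · exact hc ht a (h ha) b hb
    · exact hc hs a ha b (h hb))
  refine ⟨T, ?_⟩
  have hT1 : ∀ a ∈ T, ∀ b ∈ T, a * b = b * a := hT.prop
  apply Set.Subset.antisymm
  · intro a ha
    rw [Set.mem_centralizer_iff] at ha
    have h1 : insert a T ∈ {T : Set D | ∀ a ∈ T, ∀ b ∈ T, a * b = b * a} := by
      intro x hx y hy
      rcases hx with rfl | hx
      · rcases hy with rfl | hy
        · rfl
        · exact (ha y hy).symm
      · rcases hy with rfl | hy
        · exact ha x hx
        · exact hT1 x hx y hy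
    exact hT.le_of_ge h1 (Set.subset_insert a T) (Set.mem_insert a T)
  · intro a ha
    rw [Set.mem_centralizer_iff]
    intro b hb
    exact hT1 b hb a ha

theorem exists_field (R M : Type) [Ring R] [AddCommGroup M] [Module R M] [IsSimpleModule R M] :
    ∃ (S : Type) (_ : Field S) (_ : Module S M) (_ : SMulCommClass R S M),
      ∀ f : M →ₗ[R] M, (∀ (s : S) (m : M), f (s • m) = s • f m) → ∃ s : S, ∀ m, f m = s • m := by
  classical
  obtain ⟨T, hT⟩ := exists_self_centralizer (Module.End R M)
  have hmem : ∀ a : Module.End R M, a ∈ T ↔ ∀ b ∈ T, b * a = a * b := by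
    intro a
    conv_lhs => rw [← hT]
    rw [Set.mem_centralizer_iff]
  let S' : Subfield (Module.End R M) :=
    { carrier := T
      mul_mem' := by
        intro a b ha hb
        rw [hmem] at ha hb ⊢
        intro c hc
        rw [← mul_assoc, ha c hc, mul_assoc, hb c hc, mul_assoc]
      one_mem' := by
        rw [hmem]; intro b _; rw [mul_one, one_mul]
      add_mem' := by
        intro a b ha hb
        rw [hmem] at ha hb ⊢
        intro c hc
        rw [mul_add, add_mul, ha c hc, hb c hc]
      zero_mem' := by
        rw [hmem]; intro b _; rw [mul_zero, zero_mul]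
      neg_mem' := by
        intro a ha
        rw [hmem] at ha ⊢
        intro c hc
        rw [mul_neg, neg_mul, ha c hc]
      inv_mem' := by
        intro a ha
        rw [hmem] at ha ⊢
        intro c hc
        have h1 : Commute c a := ha c hc
        exact h1.inv_right₀ }
  let F : Field S' := { (inferInstance : DivisionRing S') with
    mul_comm := by
      intro a b
      apply Subtype.ext
      have hb : (b : Module.End R M) ∈ T := b.2
      rw [hmem] at hb
      exact hb a a.2 }
  let Mo : Module S' M := Module.compHom M S'.subtype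
  have hsm : ∀ (s : S') (m : M), s • m = (s : Module.End R M) m := fun s m => rfl
  refine ⟨S', F, Mo, ⟨?_⟩, ?_⟩
  · intro r s m
    exact (map_smul (s : Module.End R M) r m).symm
  · intro f hf
    have hfT : f ∈ T := by
      rw [hmem]
      intro b hb
      ext m
      exact (hf ⟨b, hb⟩ m).symm
    exact ⟨⟨f, hfT⟩, fun m => rfl⟩

section density

variable {R M S : Type*} [Ring R] [AddCommGroup M] [Module R M] [IsSimpleModule R M] [Field S]
  [Module S M] [SMulCommClass R S M]

/-- the span of the image of `R` is dense -/
theorem density (hS : ∀ f : M →ₗ[R] M, (∀ (s : S) (m : M), f (s • m) = s • f m) →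
      ∃ s : S, ∀ m, f m = s • m) (g : M →ₗ[S] M) (t : Finset M) :
    ∃ a ∈ Submodule.span S (Set.range (Module.toModuleEnd S (S := R) M)), ∀ m ∈ t, a m = g m := by
  obtain ⟨A, hA⟩ : ∃ A : Subalgebra S (Module.End S M),
    A = Algebra.adjoin S (Set.range (Module.toModuleEnd S (S := R) M)) := ⟨_, rfl⟩
  have hAspan : ∀ a, a ∈ A ↔ a ∈ Submodule.span S (Set.range (Module.toModuleEnd S (S := R) M)) := by
    intro a
    rw [hA, ← Subalgebra.mem_toSubmodule, Algebra.adjoin_eq_span_of_subset]
    refine subset_trans ?_ Submodule.subset_span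
    have : (Set.range (Module.toModuleEnd S (S := R) M)) =
        (MonoidHom.mrange (Module.toModuleEnd S (S := R) M).toMonoidHom : Set (Module.End S M)) := rfl
    rw [this, Submonoid.closure_eq]
  have hφA : ∀ r : R, Module.toModuleEnd S (S := R) M r ∈ A := by
    intro r
    rw [hA]
    exact Algebra.subset_adjoin ⟨r, rfl⟩
  have hsmulA : ∀ (a : A) (m : M), a • m = (a : Module.End S M) m := fun a m => rfl
  have hsimple : IsSimpleModule A M := by
    rw [isSimpleModule_iff_toSpanSingleton_surjective]
    refine ⟨IsSimpleModule.nontrivial R M, ?_⟩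
    intro m hm y
    obtain ⟨r, hr⟩ := IsSimpleModule.toSpanSingleton_surjective R hm y
    refine ⟨⟨_, hφA r⟩, ?_⟩
    rw [LinearMap.toSpanSingleton_apply] at hr ⊢
    rw [hsmulA]
    exact hr
  have hend : ∀ f : M →ₗ[A] M, ∃ s : S, ∀ m, f m = s • m := by
    intro f
    have h1 : ∀ (a : A) (m : M), f ((a : Module.End S M) m) = (a : Module.End S M) (f m) := by
      intro a m
      rw [← hsmulA, map_smul, hsmulA]
    let f' : M →ₗ[R] M :=
      { toFun := f
        map_add' := map_add f
        map_smul' := by
          intro r m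
          exact h1 ⟨_, hφA r⟩ m }
    refine hS f' ?_
    intro s m
    have := h1 (algebraMap S A s) m
    have e : ((algebraMap S A s : A) : Module.End S M) = algebraMap S (Module.End S M) s := rfl
    rw [e, Module.algebraMap_end_apply, Module.algebraMap_end_apply] at this
    exact this
  let g' : Module.End (Module.End A M) M :=
    { toFun := g
      map_add' := map_add g
      map_smul' := by
        intro f m
        obtain ⟨s, hs⟩ := hend f
        rw [Module.End.smul_def, RingHom.id_apply, Module.End.smul_def, hs, hs, map_smul] }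
  obtain ⟨a, ha⟩ := jacobson_density (R := A) g' t
  refine ⟨a, (hAspan _).mp a.2, ?_⟩
  intro m hm
  rw [← hsmulA, ← ha m hm]
  rfl

end density

/-- a multilinear map vanishing on tuples of `s` vanishes on tuples of the span -/
theorem multilinear_span {S V W : Type*} [CommRing S] [AddCommGroup V] [Module S V]
    [AddCommGroup W] [Module S W] {d : ℕ} (F : MultilinearMap S (fun _ : Fin d => V) W) (s : Set V)
    (h : ∀ x : Fin d → V, (∀ i, x i ∈ s) → F x = 0) :
    ∀ x : Fin d → V, (∀ i, x i ∈ Submodule.span S s) → F x = 0 := by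
  have key : ∀ T : Finset (Fin d), ∀ x : Fin d → V, (∀ i ∈ T, x i ∈ Submodule.span S s) →
      (∀ i ∉ T, x i ∈ s) → F x = 0 := by
    intro T
    induction T using Finset.induction_on with
    | empty => intro x _ hx; exact h x (fun i => hx i (Finset.notMem_empty i))
    | insert j T hj ih =>
      intro x hx hx'
      have gen : ∀ y ∈ Submodule.span S s, F (Function.update x j y) = 0 := by
        intro y hy
        induction hy using Submodule.span_induction with
        | mem y hy =>
          apply ih
          · intro i hi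
            have hij : i ≠ j := by rintro rfl; exact hj hi
            rw [Function.update_of_ne hij]
            exact hx i (Finset.mem_insert_of_mem hi)
          · intro i hi
            by_cases hij : i = j
            · subst hij; rwa [Function.update_self]
            · rw [Function.update_of_ne hij]
              exact hx' i (by rw [Finset.mem_insert, not_or]; exact ⟨hij, hi⟩)
        | zero => exact F.map_update_zero x j
        | add y z _ _ hy hz => rw [F.map_update_add, hy, hz, add_zero]
        | smul c y _ hy => rw [F.map_update_smul, hy, smul_zero]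
      have := gen (x j) (hx j (Finset.mem_insert_self j T))
      rwa [Function.update_eq_self] at this
  intro x hx
  exact key Finset.univ x (fun i _ => hx i) (fun i hi => absurd (Finset.mem_univ i) hi)

/-- the staircase -/
theorem staircase {S V : Type*} [Field S] [AddCommGroup V] [Module S V] {d : ℕ} (m : ℕ → V)
    (a : Fin d → Module.End S V)
    (h1 : ∀ i : Fin d, a i (m (i + 1)) = m i) (h2 : ∀ i : Fin d, ∀ j : ℕ, j ≤ d → j ≠ i + 1 →
      a i (m j) = 0) (σ : Equiv.Perm (Fin d)) :
    (List.ofFn fun i => a (σ i)).prod (m d) = if σ = 1 then m 0 else 0 := by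
  have key : ∀ e k (hk : k + e = d), (List.ofFn fun i => a (σ i)).prod (m d) =
      if (∀ j : Fin d, k ≤ (j : ℕ) → σ j = j) then
        (List.ofFn fun i : Fin k => a (σ ⟨i, lt_of_lt_of_le i.2 (by omega)⟩)).prod (m k) else 0 := by
    intro e
    induction e with
    | zero =>
      intro k hk
      have hk' : k = d := by omega
      subst hk'
      rw [if_pos]
      intro j hj
      exact absurd j.2 (not_lt.mpr hj)
    | succ e ih =>
      intro k hk
      have hkd : k < d := by omega
      rw [ih (k + 1) (by omega)]
      by_cases hc : ∀ j : Fin d, k + 1 ≤ (j : ℕ) → σ j = j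
      · rw [if_pos hc, List.ofFn_succ', List.concat_eq_append, List.prod_append,
          List.prod_singleton, Module.End.mul_apply]
        by_cases hσk : σ ⟨k, hkd⟩ = ⟨k, hkd⟩
        · rw [if_pos]
          · have : a (σ ⟨(Fin.last k : Fin (k + 1)), lt_of_lt_of_le (Fin.last k).2 hkd⟩) (m (k + 1)) =
                m k := by
              have e : (⟨(Fin.last k : Fin (k + 1)), lt_of_lt_of_le (Fin.last k).2 hkd⟩ : Fin d) =
                ⟨k, hkd⟩ := rfl
              rw [e, hσk]
              exact h1 ⟨k, hkd⟩
            rw [this]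
            rfl
          · intro j hj
            rcases Nat.lt_or_ge k j with h | h
            · exact hc j h
            · have : j = ⟨k, hkd⟩ := Fin.ext (le_antisymm h hj)
              rw [this]; exact hσk
        · rw [if_neg]
          · have : a (σ ⟨(Fin.last k : Fin (k + 1)), lt_of_lt_of_le (Fin.last k).2 hkd⟩) (m (k + 1)) =
                0 := by
              have e : (⟨(Fin.last k : Fin (k + 1)), lt_of_lt_of_le (Fin.last k).2 hkd⟩ : Fin d) =
                ⟨k, hkd⟩ := rfl
              rw [e]
              apply h2 _ _ hkd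
              intro hcon
              apply hσk
              apply Fin.ext
              change ((σ ⟨k, hkd⟩ : Fin d) : ℕ) = k
              omega
            rw [this, map_zero]
          · intro hcon
            exact hσk (hcon ⟨k, hkd⟩ le_rfl)
      · rw [if_neg hc, if_neg]
        intro hcon
        apply hc
        intro j hj
        exact hcon j (by omega)
  rw [key d 0 (by omega)]
  by_cases hσ : σ = 1
  · rw [if_pos, if_pos hσ]
    · simp
    · intro j _; rw [hσ]; rfl
  · rw [if_neg, if_neg hσ]
    intro hcon
    apply hσ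
    ext j
    rw [hcon j (Nat.zero_le _)]
    rfl

theorem exists_linearMap {K V W ι : Type*} [Field K] [AddCommGroup V] [Module K V]
    [AddCommGroup W] [Module K W] {v : ι → V} (hv : LinearIndependent K v) (w : ι → W) :
    ∃ f : V →ₗ[K] W, ∀ i, f (v i) = w i := by
  obtain ⟨f, hf⟩ := LinearMap.exists_extend ((Module.Basis.span hv).constr K w)
  refine ⟨f, fun i => ?_⟩
  have := LinearMap.congr_fun hf (Module.Basis.span hv i)
  rw [LinearMap.comp_apply, Module.Basis.constr_basis] at this
  rw [← this]
  congr 1
  exact (congrArg Subtype.val (Module.Basis.span_apply hv i)).symm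

/-- the multilinear identity -/
def IsPI (R : Type*) [Ring R] (d : ℕ) : Prop :=
  ∃ c : Equiv.Perm (Fin d) → ℤ, c 1 = 1 ∧ ∀ x : Fin d → R,
    ∑ σ : Equiv.Perm (Fin d), ((c σ : ℤ) : R) * (List.ofFn (fun i => x (σ i))).prod = 0

theorem not_indep {R M S : Type*} [Ring R] [AddCommGroup M] [Module R M] [IsSimpleModule R M]
    [Field S] [Module S M] [SMulCommClass R S M]
    (hS : ∀ f : M →ₗ[R] M, (∀ (s : S) (m : M), f (s • m) = s • f m) → ∃ s : S, ∀ m, f m = s • m)
    {d : ℕ} (hPI : IsPI R d) (v : Fin (d + 1) → M) : ¬ LinearIndependent S v := by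
  intro hv
  obtain ⟨c, hc, hR⟩ := hPI
  classical
  -- the operators
  have h1 : ∀ i : Fin d, ∃ a ∈ Submodule.span S (Set.range (Module.toModuleEnd S (S := R) M)),
      ∀ j : Fin (d + 1), a (v j) = if j = i.succ then v i.castSucc else 0 := by
    intro i
    obtain ⟨g, hg⟩ := exists_linearMap hv (fun j => if j = i.succ then v i.castSucc else 0)
    obtain ⟨a, ha, h⟩ := density hS g (Finset.univ.image v)
    refine ⟨a, ha, ?_⟩
    intro j
    rw [h _ (Finset.mem_image_of_mem v (Finset.mem_univ j)), hg]
  choose a ha hav using h1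
  obtain ⟨F, hF⟩ : ∃ F : MultilinearMap S (fun _ : Fin d => Module.End S M) (Module.End S M),
      ∀ x, F x = ∑ σ : Equiv.Perm (Fin d), (c σ) • (List.ofFn fun i => x (σ i)).prod := by
    refine ⟨∑ σ : Equiv.Perm (Fin d), (c σ) •
      (MultilinearMap.mkPiAlgebraFin S d (Module.End S M)).domDomCongr σ, ?_⟩
    intro x
    rw [_root_.sum_apply]
    refine Finset.sum_congr rfl ?_
    intro σ _
    rfl
  have hF0 : F a = 0 := by
    refine multilinear_span F _ ?_ a ha
    intro x hx
    choose r hr using hx
    rw [hF]
    have : ∑ σ : Equiv.Perm (Fin d), (c σ) • (List.ofFn fun i => x (σ i)).prod =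
        Module.toModuleEnd S (S := R) M (∑ σ : Equiv.Perm (Fin d), ((c σ : ℤ) : R) *
          (List.ofFn (fun i => r (σ i))).prod) := by
      rw [map_sum]
      refine Finset.sum_congr rfl ?_
      intro σ _
      rw [map_mul, map_intCast, map_list_prod, List.map_ofFn, zsmul_eq_mul]
      congr 3
      funext i
      exact (hr (σ i)).symm
    rw [this, hR, map_zero]
  obtain ⟨m, hm⟩ : ∃ m : ℕ → M, m = fun j => if h : j < d + 1 then v ⟨j, h⟩ else 0 := ⟨_, rfl⟩
  have hmv : ∀ j (h : j < d + 1), m j = v ⟨j, h⟩ := by
    intro j h; rw [hm]; simp [h]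
  have hst : ∀ σ : Equiv.Perm (Fin d), (List.ofFn fun i => a (σ i)).prod (m d) =
      if σ = 1 then m 0 else 0 := by
    intro σ
    apply staircase
    · intro i
      rw [hmv (i + 1) (by omega), hav, if_pos (by ext; rfl), hmv i (by omega)]
      rfl
    · intro i j hj hne
      rw [hmv j (by omega), hav, if_neg]
      intro hcon
      apply hne
      have := congrArg Fin.val hcon
      simpa using this
  have h2 := LinearMap.congr_fun hF0 (m d)
  rw [hF, LinearMap.sum_apply, Finset.sum_eq_single 1] at h2
  · rw [LinearMap.smul_apply, hst, if_pos rfl, hc, one_smul, hmv 0 (by omega),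
      LinearMap.zero_apply] at h2
    exact hv.ne_zero _ h2
  · intro σ _ hσ
    rw [LinearMap.smul_apply, hst, if_neg hσ, smul_zero]
  · intro h; exact absurd (Finset.mem_univ _) h

/-- Kaplansky's theorem, split form. -/
theorem kap {R M : Type} [Ring R] [AddCommGroup M] [Module R M] [IsSimpleModule R M]
    {d : ℕ} (hPI : IsPI R d) :
    ∃ (L : Type) (_ : Field L) (k : ℕ) (ρ : R →+* Matrix (Fin k) (Fin k) L), k ≤ d ∧
      (∀ r, ρ r = 0 ↔ ∀ m : M, r • m = 0) ∧ Submodule.span L (Set.range ρ) = ⊤ ∧
      ∀ w, ρ w ≠ 0 → ∃ l : List (R × R), (l.map fun p => ρ p.1 * ρ w * ρ p.2).sum = 1 := by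
  classical
  obtain ⟨S, _, _, _, hS⟩ := exists_field R M
  have hind := fun v => not_indep hS hPI v
  have hrank : Module.rank S M ≤ d := by
    apply rank_le
    intro s hs
    by_contra hcon
    push Not at hcon
    have e : Fin (d + 1) ↪ s := by
      apply (Function.Embedding.nonempty_of_card_le _).some
      rw [Fintype.card_fin, Fintype.card_coe]
      omega
    exact hind _ (hs.comp e e.injective)
  have hfin : Module.Finite S M := by
    rw [← Module.rank_lt_aleph0_iff]
    exact lt_of_le_of_lt hrank (Cardinal.natCast_lt_aleph0)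
  have hfr : Module.finrank S M ≤ d := Module.finrank_le_of_rank_le hrank
  obtain ⟨k, hk⟩ : ∃ k, k = Module.finrank S M := ⟨_, rfl⟩
  have b : Module.Basis (Fin k) S M := by rw [hk]; exact Module.finBasis S M
  obtain ⟨φ, hφ⟩ : ∃ φ : R →+* Module.End S M, φ = Module.toModuleEnd S (S := R) M := ⟨_, rfl⟩
  have hφa : ∀ r m, φ r m = r • m := by intro r m; rw [hφ]; rfl
  obtain ⟨ρ, hρ⟩ : ∃ ρ : R →+* Matrix (Fin k) (Fin k) S,
    ∀ r, ρ r = LinearMap.toMatrixAlgEquiv b (φ r) :=
    ⟨((LinearMap.toMatrixAlgEquiv b).toRingEquiv.toRingHom).comp φ, fun r => rfl⟩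
  have hρ0 : ∀ r, ρ r = 0 ↔ ∀ m : M, r • m = 0 := by
    intro r
    rw [hρ, EmbeddingLike.map_eq_zero_iff]
    constructor
    · intro h m
      rw [← hφa, h]; rfl
    · intro h
      ext m
      rw [hφa, h]; rfl
  refine ⟨S, _, k, ρ, by omega, hρ0, ?_, ?_⟩
  · rw [eq_top_iff]
    intro X _
    obtain ⟨g, rfl⟩ := (LinearMap.toMatrixAlgEquiv b).surjective X
    obtain ⟨a, ha, hag⟩ := density hS g (Finset.univ.image b)
    have hag' : a = g := by
      apply b.ext
      intro i
      exact hag _ (Finset.mem_image_of_mem b (Finset.mem_univ i))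
    rw [← hφ, hag'] at ha
    have h1 := Submodule.mem_map_of_mem (f := (LinearMap.toMatrixAlgEquiv b).toLinearMap) ha
    rw [Submodule.map_span] at h1
    refine Submodule.span_mono ?_ h1
    rintro _ ⟨_, ⟨r, rfl⟩, rfl⟩
    exact ⟨r, hρ r⟩
  · intro w hw
    have hw' : ∃ m₀ : M, w • m₀ ≠ 0 := by
      by_contra hcon
      push Not at hcon
      exact hw ((hρ0 w).mpr hcon)
    obtain ⟨m₀, hm₀⟩ := hw'
    -- finite over the division ring
    have hD : Module.Finite (Module.End R M) M := by
      rw [Module.finite_def, Submodule.fg_def]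
      refine ⟨Set.range b, Set.finite_range b, ?_⟩
      rw [eq_top_iff]
      intro m hm'
      clear hm'
      have hm : m ∈ Submodule.span S (Set.range b) := by rw [b.span_eq]; trivial
      induction hm using Submodule.span_induction with
      | mem x hx => exact Submodule.subset_span hx
      | zero => exact zero_mem _
      | add x y _ _ hx hy => exact add_mem hx hy
      | smul s x _ hx =>
        let f : Module.End R M :=
          { toFun := fun m => s • m
            map_add' := fun x y => smul_add s x y
            map_smul' := fun r x => (smul_comm r s x).symm }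
        have := Submodule.smul_mem _ f hx
        exact this
    let e := Module.finBasis (Module.End R M) M
    have hb : ∀ j, ∃ r : R, ∀ i, r • e i = if i = j then m₀ else 0 := by
      intro j
      obtain ⟨r, hr⟩ := jacobson_density (R := R) (M := M)
        (e.constr ℕ (fun i => if i = j then m₀ else 0)) (Finset.univ.image e)
      refine ⟨r, ?_⟩
      intro i
      rw [← hr _ (Finset.mem_image_of_mem e (Finset.mem_univ i)), Module.Basis.constr_basis]
    choose β hβ using hb
    have ha : ∀ j, ∃ r : R, r • (w • m₀) = e j := by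
      intro j
      exact IsSimpleModule.toSpanSingleton_surjective R hm₀ (e j)
    choose α hα using ha
    refine ⟨List.ofFn fun j => (α j, β j), ?_⟩
    have h1 : φ ((List.ofFn fun j => α j * w * β j).sum) = 1 := by
      have h2 : ∀ i, (List.ofFn fun j => α j * w * β j).sum • e i = e i := by
        intro i
        rw [List.sum_ofFn, Finset.sum_smul, Finset.sum_eq_single i]
        · rw [mul_smul, hβ, if_pos rfl, mul_smul, hα]
        · intro j _ hj
          rw [mul_smul, hβ, if_neg hj.symm, smul_zero]
        · intro h; exact absurd (Finset.mem_univ _) h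
      ext m
      rw [hφa, Module.End.one_apply]
      have h3 : (⟨⟨fun m => (List.ofFn fun j => α j * w * β j).sum • m, fun x y => smul_add _ x y⟩,
          fun f x => (f.map_smul _ x).symm⟩ : M →ₗ[Module.End R M] M) = LinearMap.id := by
        apply e.ext
        intro i
        exact h2 i
      exact LinearMap.congr_fun h3 m
    have h4 : ρ ((List.ofFn fun j => α j * w * β j).sum) = 1 := by
      rw [hρ, h1, map_one]
    rw [← h4, map_list_sum, List.map_ofFn, List.map_ofFn]
    congr 1
    congr 1
    funext j
    simp

theorem Q_of_PI {R : Type} [Ring R] {d : ℕ} (hPI : IsPI R d) : Q d R := by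
  intro I hI
  have : IsSimpleModule R (R ⧸ I) := isSimpleModule_iff_isCoatom.mpr hI.out
  obtain ⟨L, _, k, ρ, hk, h1, h2, h3⟩ := kap (M := R ⧸ I) hPI
  refine ⟨L, _, k, ρ, hk, ?_, h2, h3⟩
  intro r
  rw [h1]
  constructor
  · intro h s
    have := h (Submodule.Quotient.mk s)
    rw [← Submodule.Quotient.mk_smul, Submodule.Quotient.mk_eq_zero, smul_eq_mul] at this
    exact this
  · intro h m
    obtain ⟨s, rfl⟩ := Submodule.Quotient.mk_surjective _ m
    rw [← Submodule.Quotient.mk_smul, Submodule.Quotient.mk_eq_zero, smul_eq_mul]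
    exact h s

end Pool.Agent.V5helper35.PI
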