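import Mathlib

set_option autoImplicit false

/-! # Capelli expressions -/

namespace Pool.Agent.V5helper35.PI

open Polynomial

section general

variable {A B : Type*} [Ring A] [Ring B] {N : ℕ}

/-- Capelli expression: alternating in `x`. -/
def cap (y0 y1 : A) (y x : Fin N → A) : A :=
  ∑ σ : Equiv.Perm (Fin N), (Equiv.Perm.sign σ : ℤ) •
    (y0 * (List.ofFn fun j => x (σ j) * y j).prod * y1)

/-- the alternating map -/
noncomputable def capAlt (K : Type*) [CommRing K] [Algebra K A] (y0 y1 : A) (y : Fin N → A) :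
    A [⋀^Fin N]→ₗ[K] A :=
  MultilinearMap.alternatization
    (((LinearMap.mulRight K y1) ∘ₗ (LinearMap.mulLeft K y0)).compMultilinearMap
      ((MultilinearMap.mkPiAlgebraFin K N A).compLinearMap (fun j => LinearMap.mulRight K (y j))))

theorem capAlt_apply (K : Type*) [CommRing K] [Algebra K A] (y0 y1 : A) (y x : Fin N → A) :
    capAlt K y0 y1 y x = cap y0 y1 y x := by
  unfold capAlt cap
  rw [MultilinearMap.alternatization_apply]
  refine Finset.sum_congr rfl ?_
  intro σ _
  rfl

/-- a sum of Capelli expressions -/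
def capL (Y : List (A × A × (Fin N → A))) (x : Fin N → A) : A :=
  (Y.map fun p => cap p.1 p.2.1 p.2.2 x).sum

/-- a sum of Capelli expressions, as an alternating map -/
noncomputable def capLAlt (K : Type*) [CommRing K] [Algebra K A]
    (Y : List (A × A × (Fin N → A))) : A [⋀^Fin N]→ₗ[K] A :=
  (Y.map fun p => capAlt K p.1 p.2.1 p.2.2).sum

theorem capLAlt_apply (K : Type*) [CommRing K] [Algebra K A]
    (Y : List (A × A × (Fin N → A))) (x : Fin N → A) : capLAlt K Y x = capL Y x := by
  unfold capLAlt capL
  induction Y with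
  | nil => simp
  | cons p Y ih =>
    rw [List.map_cons, List.sum_cons, AlternatingMap.add_apply, ih, capAlt_apply, List.map_cons,
      List.sum_cons]

/-- transport of the parameters -/
def mapY (f : A →+* B) (Y : List (A × A × (Fin N → A))) : List (B × B × (Fin N → B)) :=
  Y.map fun p => (f p.1, f p.2.1, f ∘ p.2.2)

theorem map_cap (f : A →+* B) (y0 y1 : A) (y x : Fin N → A) :
    f (cap y0 y1 y x) = cap (f y0) (f y1) (f ∘ y) (f ∘ x) := by
  unfold cap
  rw [map_sum]
  refine Finset.sum_congr rfl ?_
  intro σ _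
  rw [map_zsmul, map_mul, map_mul, map_list_prod, List.map_ofFn]
  congr 6
  funext j
  simp

theorem map_capL (f : A →+* B) (Y : List (A × A × (Fin N → A))) (x : Fin N → A) :
    f (capL Y x) = capL (mapY f Y) (f ∘ x) := by
  unfold capL mapY
  rw [map_list_sum, List.map_map, List.map_map]
  congr 1
  apply List.map_congr_left
  intro p _
  exact map_cap f _ _ _ _

theorem mul_cap_mul (a b y0 y1 : A) (y x : Fin N → A) :
    a * cap y0 y1 y x * b = cap (a * y0) (y1 * b) y x := by
  unfold cap
  rw [Finset.mul_sum, Finset.sum_mul]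
  refine Finset.sum_congr rfl ?_
  intro σ _
  rw [mul_smul_comm, smul_mul_assoc]
  simp only [mul_assoc]

end general

/-! ## alternating maps on a free module -/

section alt

variable {S V W : Type*} [CommRing S] [AddCommGroup V] [Module S V] [AddCommGroup W] [Module S W]

theorem alt_eq_zero {N : ℕ} {ι : Type*} [Fintype ι] (e : Module.Basis ι S V)
    (h : Fintype.card ι < N) (f : V [⋀^Fin N]→ₗ[S] W) : f = 0 := by
  refine Module.Basis.ext_alternating e fun i hi => ?_
  have := Fintype.card_le_of_injective i hi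
  rw [Fintype.card_fin] at this
  omega

theorem alt_eq_det {ι : Type*} [Fintype ι] [DecidableEq ι] (e : Module.Basis ι S V)
    (f : V [⋀^ι]→ₗ[S] W) (x : ι → V) : f x = e.det x • f e := by
  have key : f = (LinearMap.toSpanSingleton S W (f e)).compAlternatingMap e.det := by
    refine Module.Basis.ext_alternating e fun i h => ?_
    let σ : Equiv.Perm ι := Equiv.ofBijective i (Finite.injective_iff_bijective.1 h)
    change f (e ∘ σ) = ((LinearMap.toSpanSingleton S W (f e)).compAlternatingMap e.det) (e ∘ σ)
    simp [AlternatingMap.map_perm, Module.Basis.det_self]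
  conv_lhs => rw [key]
  simp

theorem cramer_rel {ι : Type*} [Fintype ι] [DecidableEq ι] (e : Module.Basis ι S V)
    (v : ι → V) (x : V) : e.det v • x = ∑ j, e.det (Function.update v j x) • v j := by
  apply e.repr.injective
  ext i
  have h := congrFun (Matrix.mulVec_cramer (e.toMatrix v) (e.repr x)) i
  rw [map_smul, map_sum, Finsupp.coe_smul, Pi.smul_apply, Finsupp.finsetSum_apply]
  rw [Pi.smul_apply] at h
  rw [Module.Basis.det_apply, ← h, Matrix.mulVec, dotProduct]
  refine Finset.sum_congr rfl ?_
  intro j _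
  rw [Matrix.cramer_apply, map_smul, Finsupp.coe_smul, Pi.smul_apply, Module.Basis.det_apply,
    Module.Basis.toMatrix_update, smul_eq_mul, mul_comm]
  rfl

end alt

section mat

variable {S : Type*} [CommRing S]

theorem det_mulLeft_matrix {k : ℕ} (t : Matrix (Fin k) (Fin k) S) :
    LinearMap.det (LinearMap.mulLeft S t) = t.det ^ k := by
  let T : Matrix (Fin k) (Fin k) S ≃ₗ[S] (Fin k → Fin k → S) :=
    { toFun := fun M j i => M i j
      invFun := fun M => Matrix.of fun i j => M j i
      map_add' := fun _ _ => rfl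
      map_smul' := fun _ _ => rfl
      left_inv := fun _ => rfl
      right_inv := fun _ => rfl }
  rw [← LinearMap.det_conj (LinearMap.mulLeft S t) T]
  have : (T.toLinearMap ∘ₗ LinearMap.mulLeft S t ∘ₗ T.symm.toLinearMap) =
      LinearMap.pi (fun i : Fin k => (Matrix.toLin' t).comp (LinearMap.proj i)) := by
    apply LinearMap.ext
    intro x
    funext j i
    simp only [LinearMap.comp_apply, LinearMap.pi_apply, LinearMap.proj_apply, Matrix.toLin'_apply]
    rfl
  have h2 : ((T : Matrix (Fin k) (Fin k) S →ₗ[S] (Fin k → Fin k → S)) ∘ₗ LinearMap.mulLeft S t ∘ₗ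
      (T.symm : (Fin k → Fin k → S) →ₗ[S] Matrix (Fin k) (Fin k) S)) =
      LinearMap.pi (fun i : Fin k => (Matrix.toLin' t).comp (LinearMap.proj i)) := this
  rw [h2, LinearMap.det_pi]
  simp

/-- standard basis indexed by `Fin (d * d)` -/
noncomputable def eb (S : Type*) [CommRing S] (d : ℕ) :
    Module.Basis (Fin (d * d)) S (Matrix (Fin d) (Fin d) S) :=
  (Matrix.stdBasis S (Fin d) (Fin d)).reindex finProdFinEquiv

theorem alt_mul_left {d : ℕ} {W : Type*} [AddCommGroup W] [Module S W]
    (f : Matrix (Fin d) (Fin d) S [⋀^Fin (d * d)]→ₗ[S] W) (t : Matrix (Fin d) (Fin d) S)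
    (x : Fin (d * d) → Matrix (Fin d) (Fin d) S) :
    f (fun j => t * x j) = t.det ^ d • f x := by
  rw [alt_eq_det (eb S d) f x, alt_eq_det (eb S d) f, smul_smul]
  congr 1
  have : (fun j => t * x j) = (LinearMap.mulLeft S t) ∘ x := rfl
  rw [this, Module.Basis.det_comp, det_mulLeft_matrix]

end mat

end Pool.Agent.V5helper35.PI
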