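import Pool.Agent.V5helper35.PI.Cap

set_option autoImplicit false

/-! # Central elements with Cramer relations from Capelli expressions -/

namespace Pool.Agent.V5helper35.PI

open Polynomial Matrix

variable {R L : Type*} [Ring R] [Field L] {N d k : ℕ}

/-- the Capelli expression with `X - v` inserted -/
noncomputable def PP (Y : List (R × R × (Fin N → R))) (x x' : Fin N → R) : R[X] :=
  capL (mapY (C : R →+* R[X]) Y) (fun j => (X - C (capL Y x)) * C (x' j))

/-- the central element -/
noncomputable def gam (Y : List (R × R × (Fin N → R))) (x x' : Fin N → R) : R :=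
  ∑ j ∈ Finset.range N, (capL Y x) ^ j * (PP Y x x').coeff (j + 1)

/-- extension of a representation to polynomials -/
noncomputable def Phi (ρ : R →+* Matrix (Fin k) (Fin k) L) :
    R[X] →+* Matrix (Fin k) (Fin k) L[X] :=
  ((matPolyEquiv (n := Fin k) (R := L)).symm.toRingEquiv.toRingHom).comp (mapRingHom ρ)

theorem coeff_Phi (ρ : R →+* Matrix (Fin k) (Fin k) L) (p : R[X]) (a b : Fin k) (j : ℕ) :
    (Phi ρ p a b).coeff j = ρ (p.coeff j) a b := by
  have : Phi ρ p = matPolyEquiv.symm (mapRingHom ρ p) := rfl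
  rw [this, matPolyEquiv_symm_apply_coeff, coe_mapRingHom, coeff_map]

theorem Phi_C (ρ : R →+* Matrix (Fin k) (Fin k) L) (r : R) :
    Phi ρ (C r) = (ρ r).map C := by
  have : Phi ρ (C r) = matPolyEquiv.symm (mapRingHom ρ (C r)) := rfl
  rw [this, coe_mapRingHom, map_C, matPolyEquiv_symm_C]

theorem Phi_X_sub_C (ρ : R →+* Matrix (Fin k) (Fin k) L) (r : R) :
    Phi ρ (X - C r) = charmatrix (ρ r) := by
  have : Phi ρ (X - C r) = matPolyEquiv.symm (mapRingHom ρ (X - C r)) := rfl
  rw [this, map_sub, coe_mapRingHom, map_C, map_X, ← matPolyEquiv_charmatrix,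
    AlgEquiv.symm_apply_apply]

theorem rep_small (hk : k * k < N) (ρ : R →+* Matrix (Fin k) (Fin k) L)
    (Y : List (R × R × (Fin N → R))) (x x' : Fin N → R) : ρ (gam Y x x') = 0 := by
  have h0 : Phi ρ (PP Y x x') = 0 := by
    unfold PP
    rw [map_capL, ← capLAlt_apply L[X], alt_eq_zero (Matrix.stdBasis L[X] (Fin k) (Fin k))
      (by simpa using hk) (capLAlt L[X] _)]
    rfl
  unfold gam
  rw [map_sum]
  apply Finset.sum_eq_zero
  intro j _
  rw [map_mul]
  have : ρ ((PP Y x x').coeff (j + 1)) = 0 := by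
    ext a b
    rw [← coeff_Phi, h0]
    simp
  rw [this, mul_zero]

theorem rep_coeff (ρ : R →+* Matrix (Fin d) (Fin d) L) (Y : List (R × R × (Fin (d * d) → R)))
    (x x' : Fin (d * d) → R) (j : ℕ) :
    ρ ((PP Y x x').coeff j) = (((ρ (capL Y x)).charpoly) ^ d).coeff j • ρ (capL Y x') := by
  have h0 : Phi ρ (PP Y x x') = ((ρ (capL Y x)).charpoly) ^ d • Phi ρ (C (capL Y x')) := by
    have hR : Phi ρ (C (capL Y x')) = capL (mapY (Phi ρ) (mapY C Y)) (Phi ρ ∘ C ∘ x') := by
      rw [map_capL C, map_capL (Phi ρ)]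
    rw [hR]
    unfold PP
    rw [map_capL (Phi ρ)]
    have e : (Phi ρ) ∘ (fun j => (X - C (capL Y x)) * C (x' j)) =
        fun j => charmatrix (ρ (capL Y x)) * (Phi ρ ∘ C ∘ x') j := by
      funext j
      simp only [Function.comp_apply]
      rw [map_mul, Phi_X_sub_C]
    rw [e, ← capLAlt_apply L[X] (mapY (Phi ρ) (mapY C Y)), alt_mul_left, capLAlt_apply]
    rfl
  ext a b
  rw [← coeff_Phi, h0, Phi_C, Matrix.smul_apply, Matrix.map_apply, smul_eq_mul, coeff_mul_C,
    Matrix.smul_apply, smul_eq_mul]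

/-- `ψ(M) = Σ c_{j+1} M^j` where `χ_M^d = Σ c_j X^j` -/
noncomputable def psi (M : Matrix (Fin d) (Fin d) L) : Matrix (Fin d) (Fin d) L :=
  ∑ j ∈ Finset.range (d * d), (M.charpoly ^ d).coeff (j + 1) • M ^ j

theorem rep_gam (ρ : R →+* Matrix (Fin d) (Fin d) L) (Y : List (R × R × (Fin (d * d) → R)))
    (x x' : Fin (d * d) → R) :
    ρ (gam Y x x') = psi (ρ (capL Y x)) * ρ (capL Y x') := by
  unfold gam psi
  rw [map_sum, Finset.sum_mul]
  refine Finset.sum_congr rfl ?_
  intro j _
  rw [map_mul, map_pow, rep_coeff, mul_smul_comm, smul_mul_assoc]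

theorem psi_mul (hd : 0 < d) (M : Matrix (Fin d) (Fin d) L) :
    psi M * M = -((M.charpoly.coeff 0) ^ d) • (1 : Matrix (Fin d) (Fin d) L) := by
  have h1 : aeval M (M.charpoly ^ d) = 0 := by
    rw [map_pow, aeval_self_charpoly, zero_pow hd.ne']
  have hdeg : (M.charpoly ^ d).natDegree = d * d := by
    rw [(charpoly_monic M).natDegree_pow, charpoly_natDegree_eq_dim, Fintype.card_fin]
  rw [aeval_eq_sum_range, hdeg, Finset.sum_range_succ'] at h1
  have h2 : psi M * M = ∑ j ∈ Finset.range (d * d), (M.charpoly ^ d).coeff (j + 1) • M ^ (j + 1) := by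
    unfold psi
    rw [Finset.sum_mul]
    refine Finset.sum_congr rfl ?_
    intro j _
    rw [smul_mul_assoc, pow_succ]
  have h3 : (M.charpoly ^ d).coeff 0 = M.charpoly.coeff 0 ^ d := by
    rw [coeff_zero_eq_eval_zero, eval_pow, coeff_zero_eq_eval_zero]
  rw [h2, neg_smul, ← h3]
  rw [pow_zero] at h1
  exact eq_neg_of_add_eq_zero_left h1

theorem rep_capL (ρ : R →+* Matrix (Fin d) (Fin d) L) (Y : List (R × R × (Fin (d * d) → R)))
    (x : Fin (d * d) → R) :
    ρ (capL Y x) = (eb L d).det (ρ ∘ x) • capL (mapY ρ Y) (eb L d) := by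
  rw [map_capL, ← capLAlt_apply L, alt_eq_det (eb L d), capLAlt_apply]

theorem rep_scalar (hd : 0 < d) (ρ : R →+* Matrix (Fin d) (Fin d) L)
    (Y : List (R × R × (Fin (d * d) → R))) (x : Fin (d * d) → R) :
    ∃ l : L, ∀ x' : Fin (d * d) → R, ρ (gam Y x x') =
      ((eb L d).det (ρ ∘ x') * l) • (1 : Matrix (Fin d) (Fin d) L) := by
  obtain ⟨κ, hκ⟩ : ∃ κ, κ = capL (mapY ρ Y) (eb L d) := ⟨_, rfl⟩
  suffices h : ∃ l : L, psi (ρ (capL Y x)) * κ = l • (1 : Matrix (Fin d) (Fin d) L) by
    obtain ⟨l, hl⟩ := h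
    refine ⟨l, ?_⟩
    intro x'
    rw [rep_gam, rep_capL ρ Y x', ← hκ, mul_smul_comm, hl, smul_smul]
  by_cases hdet : (eb L d).det (ρ ∘ x) = 0
  · have hv : ρ (capL Y x) = 0 := by rw [rep_capL, hdet, zero_smul]
    rw [hv]
    by_cases hd1 : d = 1
    · subst hd1
      refine ⟨(psi (0 : Matrix (Fin 1) (Fin 1) L) * κ) 0 0, ?_⟩
      ext a b
      fin_cases a
      fin_cases b
      simp
    · refine ⟨0, ?_⟩
      have : psi (0 : Matrix (Fin d) (Fin d) L) = 0 := by
        unfold psi
        apply Finset.sum_eq_zero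
        intro j _
        by_cases hj : j = 0
        · subst hj
          rw [Matrix.charpoly_zero, Fintype.card_fin, ← pow_mul, coeff_X_pow, if_neg, zero_smul]
          intro h
          have : 1 < d := by omega
          nlinarith
        · rw [zero_pow hj, smul_zero]
      rw [this, zero_mul, zero_smul]
  · refine ⟨((eb L d).det (ρ ∘ x))⁻¹ * (-((ρ (capL Y x)).charpoly.coeff 0 ^ d)), ?_⟩
    rw [← smul_smul, ← psi_mul hd, rep_capL ρ Y x, ← hκ, mul_smul_comm, smul_smul,
      inv_mul_cancel₀ hdet, one_smul]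

theorem rep_ne (hd : 0 < d) (ρ : R →+* Matrix (Fin d) (Fin d) L)
    (Y : List (R × R × (Fin (d * d) → R))) (x : Fin (d * d) → R) (h : ρ (capL Y x) = 1) :
    ρ (gam Y x x) ≠ 0 := by
  rw [rep_gam, h]
  have h1 := psi_mul hd (1 : Matrix (Fin d) (Fin d) L)
  rw [h1]
  have h2 := det_eq_sign_charpoly_coeff (1 : Matrix (Fin d) (Fin d) L)
  rw [det_one] at h2
  have h3 : (1 : Matrix (Fin d) (Fin d) L).charpoly.coeff 0 ≠ 0 := by
    intro h
    rw [h, mul_zero] at h2
    exact one_ne_zero h2
  have h4 : -((1 : Matrix (Fin d) (Fin d) L).charpoly.coeff 0 ^ d) ≠ 0 := neg_ne_zero.mpr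
    (pow_ne_zero _ h3)
  intro h5
  have h6 := congrFun (congrFun h5 ⟨0, hd⟩) ⟨0, hd⟩
  rw [Matrix.smul_apply, Matrix.one_apply_eq, smul_eq_mul, mul_one, Matrix.zero_apply] at h6
  exact h4 h6

/-! ## non-vanishing -/

theorem prod_single_chain {ι : Type*} [Fintype ι] [DecidableEq ι] (l : List (ι × ι))
    (h : (l.map fun p => Matrix.single p.1 p.2 (1 : L)).prod ≠ 0) :
    l.IsChain (fun s t => s.2 = t.1) := by
  induction l with
  | nil => exact List.isChain_nil
  | cons s l ih =>
    cases l with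
    | nil => exact List.isChain_singleton _
    | cons t l =>
      rw [List.map_cons, List.prod_cons] at h
      have h1 : ((t :: l).map fun p => Matrix.single p.1 p.2 (1 : L)).prod ≠ 0 := by
        intro h0
        rw [h0, mul_zero] at h
        exact h rfl
      refine List.isChain_cons_cons.mpr ⟨?_, ih h1⟩
      by_contra hne
      apply h
      rw [List.map_cons, List.prod_cons, ← mul_assoc, Matrix.single_mul_single_of_ne _ _ _ _ hne,
        zero_mul]

theorem prod_single_id {ι : Type*} [Fintype ι] [DecidableEq ι] (f : ℕ → ι) (m : ℕ) :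
    (List.ofFn fun j : Fin (m + 1) => Matrix.single (f j) (f (j + 1)) (1 : L)).prod =
      Matrix.single (f 0) (f (m + 1)) 1 := by
  induction m generalizing f with
  | zero => simp
  | succ m ih =>
    rw [List.ofFn_succ, List.prod_cons]
    have := ih (fun j => f (j + 1))
    simp only [Fin.val_succ, Fin.val_zero, zero_add] at this ⊢
    rw [this, Matrix.single_mul_single_same, one_mul]

theorem cap_units_ne (hd : 0 < d) : ∃ y : Fin (d * d) → Matrix (Fin d) (Fin d) L,
    cap 1 1 y (eb L d) ≠ 0 := by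
  have hN : 0 < d * d := Nat.mul_pos hd hd
  obtain ⟨m, hm⟩ : ∃ m, d * d = m + 1 := ⟨d * d - 1, by omega⟩
  obtain ⟨pr, hpr⟩ : ∃ pr : Fin (d * d) → Fin d × Fin d, pr = finProdFinEquiv.symm := ⟨_, rfl⟩
  obtain ⟨f, hf⟩ : ∃ f : ℕ → Fin d, f = fun j => if h : j < d * d then (pr ⟨j, h⟩).1 else ⟨0, hd⟩ :=
    ⟨_, rfl⟩
  have hfj : ∀ j : Fin (d * d), f j = (pr j).1 := by
    intro j
    rw [hf]
    simp
  have heb : ∀ j, eb L d j = Matrix.single (pr j).1 (pr j).2 1 := by
    intro j
    rw [hpr, eb, Module.Basis.reindex_apply]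
    exact Matrix.stdBasis_eq_single _ _ _
  refine ⟨fun j => Matrix.single (pr j).2 (f (j + 1)) 1, ?_⟩
  unfold cap
  rw [Finset.sum_eq_single 1]
  · rw [Equiv.Perm.sign_one, Units.val_one, one_smul, one_mul, mul_one]
    have : (List.ofFn fun j : Fin (d * d) => (eb L d) ((1 : Equiv.Perm (Fin (d * d))) j) *
        Matrix.single (pr j).2 (f (j + 1)) (1 : L)).prod = Matrix.single (f 0) (f (m + 1)) 1 := by
      rw [← prod_single_id]
      have e : (List.ofFn fun j : Fin (d * d) => (eb L d) ((1 : Equiv.Perm (Fin (d * d))) j) *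
        Matrix.single (pr j).2 (f (j + 1)) (1 : L)) =
        List.ofFn fun j : Fin (d * d) => Matrix.single (f j) (f (j + 1)) (1 : L) := by
        congr 1
        funext j
        rw [Equiv.Perm.one_apply, heb, Matrix.single_mul_single_same, one_mul, hfj]
      rw [e]
      congr 1
      have e2 := List.ofFn_congr hm (fun j : Fin (d * d) => Matrix.single (f j) (f (j + 1)) (1 : L))
      rw [e2]
      rfl
    rw [this]
    intro h
    have h1 := congrFun (congrFun h (f 0)) (f (m + 1))
    rw [Matrix.single_apply_same, Matrix.zero_apply] at h1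
    exact one_ne_zero h1
  · intro σ _ hσ
    have : (List.ofFn fun j : Fin (d * d) => (eb L d) (σ j) *
        Matrix.single (pr j).2 (f (j + 1)) (1 : L)).prod = 0 := by
      by_contra hne
      -- all inner indices agree
      have h1 : ∀ j, (pr (σ j)).2 = (pr j).2 := by
        intro j
        by_contra hcon
        apply hne
        apply List.prod_eq_zero
        rw [List.mem_ofFn]
        refine ⟨j, ?_⟩
        rw [heb, Matrix.single_mul_single_of_ne _ _ _ _ hcon]
      have h2 : (List.ofFn fun j : Fin (d * d) => (eb L d) (σ j) *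
        Matrix.single (pr j).2 (f (j + 1)) (1 : L)) =
          (List.ofFn fun j : Fin (d * d) => ((pr (σ j)).1, f (j + 1))).map
            fun p => Matrix.single p.1 p.2 (1 : L) := by
        rw [List.map_ofFn]
        congr 1
        funext j
        rw [heb, h1, Matrix.single_mul_single_same, one_mul]
        rfl
      rw [h2] at hne
      have h3 := prod_single_chain _ hne
      rw [List.isChain_iff_getElem] at h3
      apply hσ
      have h4 : ∀ j : Fin (d * d), 0 < (j : ℕ) → σ j = j := by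
        intro j hj
        have h5 := h3 ((j : ℕ) - 1) (by rw [List.length_ofFn]; omega)
        rw [List.getElem_ofFn, List.getElem_ofFn] at h5
        have e1 : (⟨(j : ℕ) - 1 + 1, by omega⟩ : Fin (d * d)) = j := by
          ext; simp; omega
        simp only [] at h5
        rw [e1] at h5
        have e2 : (j : ℕ) - 1 + 1 = j := by omega
        rw [e2, hfj] at h5
        have : pr (σ j) = pr j := Prod.ext h5.symm (h1 j)
        rw [hpr] at this
        exact finProdFinEquiv.symm.injective this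
      ext j
      rw [Equiv.Perm.one_apply]
      by_cases hj : 0 < (j : ℕ)
      · rw [h4 j hj]
      · have hj0 : (j : ℕ) = 0 := by omega
        by_contra hcon
        have h5 : 0 < ((σ j : Fin (d * d)) : ℕ) := by omega
        have h6 := h4 _ h5
        exact hcon (congrArg Fin.val (σ.injective h6))
    rw [this, mul_zero, zero_mul, smul_zero]
  · intro h; exact absurd (Finset.mem_univ _) h

/-- multilinearity in the parameters -/
noncomputable def capY (b : Fin N → Matrix (Fin d) (Fin d) L) :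
    MultilinearMap L (fun _ : Fin N => Matrix (Fin d) (Fin d) L) (Matrix (Fin d) (Fin d) L) :=
  ∑ σ : Equiv.Perm (Fin N), (Equiv.Perm.sign σ : ℤ) •
    ((MultilinearMap.mkPiAlgebraFin L N (Matrix (Fin d) (Fin d) L)).compLinearMap
      (fun j => LinearMap.mulLeft L (b (σ j))))

theorem capY_apply (b y : Fin N → Matrix (Fin d) (Fin d) L) : capY b y = cap 1 1 y b := by
  unfold capY cap
  rw [_root_.sum_apply]
  refine Finset.sum_congr rfl ?_
  intro σ _
  rw [one_mul, mul_one]
  rfl

theorem exists_gam_ne (hd : 0 < d) (ρ : R →+* Matrix (Fin d) (Fin d) L)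
    (hspan : Submodule.span L (Set.range ρ) = ⊤)
    (hsimp : ∀ w, ρ w ≠ 0 → ∃ l : List (R × R), (l.map fun p => ρ p.1 * ρ w * ρ p.2).sum = 1) :
    ∃ (Y : List (R × R × (Fin (d * d) → R))) (x : Fin (d * d) → R), ρ (gam Y x x) ≠ 0 := by
  -- a basis in the image
  obtain ⟨x, hx⟩ : ∃ x : Fin (d * d) → R, ∃ b : Module.Basis (Fin (d * d)) L
      (Matrix (Fin d) (Fin d) L), ⇑b = ρ ∘ x := by
    obtain ⟨s, hs, hs1, hs2⟩ := exists_linearIndependent L (Set.range ρ)
    rw [hspan] at hs1
    obtain ⟨b, hb⟩ : ∃ b : Module.Basis s L (Matrix (Fin d) (Fin d) L), ⇑b = Subtype.val :=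
      ⟨Module.Basis.mk hs2 (by rw [Subtype.range_coe, hs1]), Module.Basis.coe_mk _ _⟩
    let e : s ≃ Fin (d * d) := b.indexEquiv (eb L d)
    have hch : ∀ i : Fin (d * d), ∃ r : R, ρ r = (e.symm i : Matrix (Fin d) (Fin d) L) := by
      intro i
      exact hs (e.symm i).2
    choose x hx using hch
    refine ⟨x, b.reindex e, ?_⟩
    funext i
    rw [Module.Basis.reindex_apply, hb, Function.comp_apply, hx]
  obtain ⟨b, hb⟩ := hx
  obtain ⟨y, hy⟩ : ∃ y : Fin (d * d) → R, ρ (cap 1 1 y x) ≠ 0 := by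
    by_contra hcon
    push Not at hcon
    have h1 : capY (N := d * d) (d := d) (L := L) b = 0 := by
      refine Module.Basis.ext_multilinear (fun _ => b) ?_
      intro v
      rw [capY_apply]
      have h2 := hcon (x ∘ v)
      rw [map_cap, map_one] at h2
      have e1 : (fun i => b (v i)) = ρ ∘ (x ∘ v) := by
        rw [hb]; rfl
      rw [e1, hb]
      exact h2
    obtain ⟨y, hy⟩ := cap_units_ne (L := L) hd
    apply hy
    rw [← capAlt_apply L, alt_eq_det b, capAlt_apply, ← capY_apply, h1]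
    simp
  obtain ⟨l, hl⟩ := hsimp _ hy
  refine ⟨l.map fun p => (p.1, p.2, y), x, ?_⟩
  apply rep_ne hd
  rw [← hl]
  unfold capL
  rw [map_list_sum, List.map_map, List.map_map]
  congr 1
  apply List.map_congr_left
  intro p _
  simp only [Function.comp_apply]
  rw [← map_mul, ← map_mul, mul_cap_mul, mul_one, one_mul]

end Pool.Agent.V5helper35.PI
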