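import Mathlib

set_option autoImplicit false

/-! # Elementary matrices over noncommutative rings: local-global lemmas at the centre -/

namespace Pool.Agent.V5helper35.PI

open Matrix

variable {n : ℕ} {A B : Type*} [Ring A] [Ring B]

/-- elementary transvection -/
def tr (i j : Fin n) (r : A) : Matrix (Fin n) (Fin n) A := 1 + Matrix.single i j r

/-- `1 + v w` -/
def U (v w : Fin n → A) : Matrix (Fin n) (Fin n) A := 1 + vecMulVec v w

/-- The elementary monoid (it is a group, see `E_inv`). -/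
def E (n : ℕ) (A : Type*) [Ring A] : Submonoid (Matrix (Fin n) (Fin n) A) :=
  Submonoid.closure {g | ∃ i j, i ≠ j ∧ ∃ r, g = tr i j r}

theorem tr_mem {i j : Fin n} (h : i ≠ j) (r : A) : tr i j r ∈ E n A :=
  Submonoid.subset_closure ⟨i, j, h, r, rfl⟩

theorem U_single (i j : Fin n) (a b : A) :
    U (Pi.single i a) (Pi.single j b) = tr i j (a * b) := by
  unfold U tr
  congr 1
  ext p q
  rw [vecMulVec_apply, Matrix.single_apply]
  by_cases hp : p = i
  · subst hp
    by_cases hq : q = j
    · subst hq; simp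
    · simp [hq, Ne.symm hq]
  · simp [hp, Ne.symm hp]

theorem U_zero_right (v : Fin n → A) : U v 0 = 1 := by simp [U]
theorem U_zero_left (w : Fin n → A) : U 0 w = 1 := by simp [U]

theorem tr_zero (i j : Fin n) : tr i j (0 : A) = 1 := by simp [tr]

theorem tr_mul_tr {i j : Fin n} (h : i ≠ j) (r s : A) : tr i j r * tr i j s = tr i j (r + s) := by
  simp [tr, mul_add, add_mul, h.symm, Matrix.single_add]
  abel

theorem tr_mul_neg {i j : Fin n} (h : i ≠ j) (r : A) : tr i j r * tr i j (-r) = 1 := by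
  rw [tr_mul_tr h, add_neg_cancel, tr_zero]

theorem E_inv {x : Matrix (Fin n) (Fin n) A} (hx : x ∈ E n A) :
    ∃ y ∈ E n A, x * y = 1 ∧ y * x = 1 := by
  induction hx using Submonoid.closure_induction with
  | mem x hx =>
    obtain ⟨i, j, h, r, rfl⟩ := hx
    refine ⟨tr i j (-r), tr_mem h _, tr_mul_neg h r, ?_⟩
    simpa using tr_mul_neg h (-r)
  | one => exact ⟨1, one_mem _, by simp, by simp⟩
  | mul x y _ _ ihx ihy =>
    obtain ⟨x', hx', h1, h2⟩ := ihx
    obtain ⟨y', hy', h3, h4⟩ := ihy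
    refine ⟨y' * x', mul_mem hy' hx', ?_, ?_⟩
    · calc x * y * (y' * x') = x * (y * y') * x' := by simp only [mul_assoc]
        _ = 1 := by rw [h3, mul_one, h1]
    · calc y' * x' * (x * y) = y' * (x' * x) * y := by simp only [mul_assoc]
        _ = 1 := by rw [h2, mul_one, h4]

theorem U_mul_left (v w w' : Fin n → A) (h : w ⬝ᵥ v = 0) :
    U v w * U v w' = U v (w + w') := by
  unfold U
  rw [mul_add, add_mul, add_mul, vecMulVec_mul_vecMulVec, h]
  simp [vecMulVec_add]
  abel

theorem U_mul_right (v v' w : Fin n → A) (h : w ⬝ᵥ v' = 0) :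
    U v w * U v' w = U (v + v') w := by
  unfold U
  rw [mul_add, add_mul, add_mul, vecMulVec_mul_vecMulVec, h]
  simp [add_vecMulVec]
  abel

/-- column concentrated at `k` -/
theorem U_col_mem (k : Fin n) (a : A) (w : Fin n → A) (hw : w k = 0) :
    U (Pi.single k a) w ∈ E n A := by
  have key : ∀ S : Finset (Fin n), k ∉ S →
      U (Pi.single k a) (∑ j ∈ S, Pi.single j (w j)) ∈ E n A := by
    intro S
    induction S using Finset.induction_on with
    | empty => intro _; rw [Finset.sum_empty, U_zero_right]; exact one_mem _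
    | insert j S hj ih =>
      intro hk
      rw [Finset.mem_insert, not_or] at hk
      rw [Finset.sum_insert hj, ← U_mul_left]
      · refine mul_mem ?_ (ih hk.2)
        rw [U_single]
        exact tr_mem hk.1 _
      · simp [hk.1]
  have hw' : w = ∑ j ∈ Finset.univ.erase k, Pi.single j (w j) := by
    funext p
    rw [Finset.sum_apply]
    by_cases hp : p = k
    · subst hp
      rw [hw, Finset.sum_eq_zero]
      intro j hj
      rw [Pi.single_eq_of_ne]
      exact (Finset.ne_of_mem_erase hj).symm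
    · rw [Finset.sum_eq_single p]
      · simp
      · intro j _ hj
        rw [Pi.single_eq_of_ne hj.symm]
      · intro hp'
        exact absurd (Finset.mem_erase.mpr ⟨hp, Finset.mem_univ _⟩) hp'
  rw [hw']
  exact key _ (Finset.notMem_erase _ _)

/-- row concentrated at `k` -/
theorem U_row_mem (k : Fin n) (a : A) (v : Fin n → A) (hv : v k = 0) :
    U v (Pi.single k a) ∈ E n A := by
  have key : ∀ S : Finset (Fin n), k ∉ S →
      U (∑ j ∈ S, Pi.single j (v j)) (Pi.single k a) ∈ E n A := by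
    intro S
    induction S using Finset.induction_on with
    | empty => intro _; rw [Finset.sum_empty, U_zero_left]; exact one_mem _
    | insert j S hj ih =>
      intro hk
      rw [Finset.mem_insert, not_or] at hk
      rw [Finset.sum_insert hj, ← U_mul_right]
      · refine mul_mem ?_ (ih hk.2)
        rw [U_single]
        exact tr_mem (Ne.symm hk.1) _
      · rw [single_dotProduct, Finset.sum_apply, Finset.sum_eq_zero, mul_zero]
        intro i hi
        rw [Pi.single_eq_of_ne]
        rintro rfl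
        exact hk.2 hi
  have hv' : v = ∑ j ∈ Finset.univ.erase k, Pi.single j (v j) := by
    funext p
    rw [Finset.sum_apply]
    by_cases hp : p = k
    · subst hp
      rw [hv, Finset.sum_eq_zero]
      intro j hj
      rw [Pi.single_eq_of_ne]
      exact (Finset.ne_of_mem_erase hj).symm
    · rw [Finset.sum_eq_single p]
      · simp
      · intro j _ hj
        rw [Pi.single_eq_of_ne hj.symm]
      · intro hp'
        exact absurd (Finset.mem_erase.mpr ⟨hp, Finset.mem_univ _⟩) hp'
  rw [hv']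
  exact key _ (Finset.notMem_erase _ _)

/-- **Lemma V.** -/
theorem U_mem_of_zero (k : Fin n) (v w : Fin n → A) (h : w ⬝ᵥ v = 0) (hw : w k = 0) :
    U v w ∈ E n A := by
  obtain ⟨v', hv'⟩ : ∃ v', v' = v - Pi.single k (v k) := ⟨_, rfl⟩
  have hk : v' k = 0 := by simp [hv']
  have hwv' : w ⬝ᵥ v' = 0 := by
    rw [hv', dotProduct_sub, h, dotProduct_single, hw, zero_mul, sub_zero]
  have e1 : U v w = U v' w * U (Pi.single k (v k)) w := by
    rw [U_mul_right]
    · rw [hv', sub_add_cancel]
    · rw [dotProduct_single, hw, zero_mul]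
  have e2 : U v' w = U v' (Pi.single k 1) * U (Pi.single k 1) w * U (-v') (Pi.single k 1) *
      U (Pi.single k 1) (-w) := by
    unfold U
    obtain ⟨P, hP⟩ : ∃ P, P = vecMulVec v' (Pi.single k (1 : A)) := ⟨_, rfl⟩
    obtain ⟨Q, hQ⟩ : ∃ Q, Q = vecMulVec (Pi.single k (1 : A)) w := ⟨_, rfl⟩
    have hPP : P * P = 0 := by
      rw [hP, vecMulVec_mul_vecMulVec, single_dotProduct, hk, mul_zero, zero_smul, vecMulVec_zero]
    have hQQ : Q * Q = 0 := by
      rw [hQ, vecMulVec_mul_vecMulVec, dotProduct_single, hw, zero_mul, zero_smul, vecMulVec_zero]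
    have hQP : Q * P = 0 := by
      rw [hQ, hP, vecMulVec_mul_vecMulVec, hwv', zero_smul, vecMulVec_zero]
    have hPQ : P * Q = vecMulVec v' w := by
      rw [hQ, hP, vecMulVec_mul_vecMulVec, single_dotProduct]
      simp
    have hn1 : vecMulVec (-v') (Pi.single k (1 : A)) = -P := by rw [hP, neg_vecMulVec]
    have hn2 : vecMulVec (Pi.single k (1 : A)) (-w) = -Q := by rw [hQ, vecMulVec_neg]
    rw [hn1, hn2, ← hP, ← hQ, ← hPQ]
    have : (1 + P) * (1 + Q) * (1 + -P) * (1 + -Q) =
      1 + P * Q - P * P - Q * P - P * (Q * P) - Q * Q - P * (Q * Q) + P * P * Q + Q * P * Q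
        + P * (Q * P) * Q := by noncomm_ring
    rw [this, hPP, hQQ, hQP]
    simp
  rw [e1, e2]
  refine mul_mem (mul_mem (mul_mem (mul_mem ?_ ?_) ?_) ?_) ?_
  · exact U_row_mem _ _ _ hk
  · exact U_col_mem _ _ _ hw
  · exact U_row_mem _ _ _ (by simp [hk])
  · exact U_col_mem _ _ _ (by simp [hw])
  · exact U_col_mem _ _ _ hw

/-! ## conjugation -/

theorem conj_U {g g' : Matrix (Fin n) (Fin n) A} (h : g * g' = 1) (v w : Fin n → A) :
    g * U v w * g' = U (g *ᵥ v) (w ᵥ* g') := by
  unfold U
  rw [mul_add, add_mul, mul_one, h, mul_vecMulVec, vecMulVec_mul]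

theorem conj_tr {g g' : Matrix (Fin n) (Fin n) A} (h : g * g' = 1) (i j : Fin n) (r : A) :
    g * tr i j r * g' = U (fun a => g a i) (fun b => r * g' j b) := by
  have : tr i j r = U (Pi.single i 1) (Pi.single j r) := by rw [U_single, one_mul]
  rw [this, conj_U h]
  congr 1
  · ext a; simp
  · ext b; simp

/-! ## the ideal of good central multiples -/

section central

variable {C : Type*} [CommRing C] [Algebra C A]

/-- `c` such that `1 + v (c w)` is elementary for all `w` with `w · v = 0`. -/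
def nv (C : Type*) [CommRing C] [Algebra C A] (v : Fin n → A) : Ideal C where
  carrier := {c | ∀ w : Fin n → A, w ⬝ᵥ v = 0 → U v (c • w) ∈ E n A}
  add_mem' := by
    intro c c' hc hc' w hw
    rw [add_smul, ← U_mul_left]
    · exact mul_mem (hc w hw) (hc' w hw)
    · rw [smul_dotProduct, hw, smul_zero]
  zero_mem' := by
    intro w _
    rw [zero_smul, U_zero_right]
    exact one_mem _
  smul_mem' := by
    intro c c' hc w hw
    rw [smul_eq_mul, mul_comm, mul_smul]
    exact hc (c • w) (by rw [smul_dotProduct, hw, smul_zero])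

theorem mem_nv {v : Fin n → A} {c : C} :
    c ∈ nv C v ↔ ∀ w : Fin n → A, w ⬝ᵥ v = 0 → U v (c • w) ∈ E n A := Iff.rfl

/-- **Fact A.** -/
theorem mem_nv_of_left (hn : 3 ≤ n) {v : Fin n → A} {k : Fin n} {y : A} {s : C}
    (h : y * v k = algebraMap C A s) : s ∈ nv C v := by
  intro w hw
  obtain ⟨ρ, hρ⟩ : ∃ ρ : Fin n → (Fin n → A),
      ρ = fun i => Pi.single i (s • w i) - Pi.single k (w i * v i * y) := ⟨_, rfl⟩
  have hρv : ∀ i, ρ i ⬝ᵥ v = 0 := by
    intro i
    rw [hρ]
    simp only [sub_dotProduct, single_dotProduct]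
    rw [mul_assoc _ y, h, smul_mul_assoc, ← Algebra.commutes, ← Algebra.smul_def, sub_self]
  have hmem : ∀ i, U v (ρ i) ∈ E n A := by
    intro i
    obtain ⟨l, hl⟩ : ∃ l : Fin n, l ∉ ({i, k} : Finset (Fin n)) := by
      by_contra hcon
      push Not at hcon
      have h1 : (Finset.univ : Finset (Fin n)) ⊆ {i, k} := fun x _ => hcon x
      have h2 := Finset.card_le_card h1
      rw [Finset.card_univ, Fintype.card_fin] at h2
      have h3 : ({i, k} : Finset (Fin n)).card ≤ 2 := Finset.card_le_two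
      omega
    rw [Finset.mem_insert, Finset.mem_singleton, not_or] at hl
    refine U_mem_of_zero l v (ρ i) (hρv i) ?_
    rw [hρ]
    simp [Pi.single_eq_of_ne hl.1, Pi.single_eq_of_ne hl.2]
  have hsum : ∀ S : Finset (Fin n), U v (∑ i ∈ S, ρ i) ∈ E n A := by
    intro S
    induction S using Finset.induction_on with
    | empty => rw [Finset.sum_empty, U_zero_right]; exact one_mem _
    | insert j S hj ih =>
      rw [Finset.sum_insert hj, ← U_mul_left _ _ _ (hρv j)]
      exact mul_mem (hmem j) ih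
  have htot : s • w = ∑ i, ρ i := by
    rw [hρ, Finset.sum_sub_distrib]
    have e1 : ∑ i, (Pi.single i (s • w i) : Fin n → A) = s • w := by
      rw [← Finset.univ_sum_single (s • w)]
      rfl
    have e2 : ∑ i, (Pi.single k (w i * v i * y) : Fin n → A) = 0 := by
      funext p
      rw [Finset.sum_apply]
      by_cases hp : p = k
      · subst hp
        simp only [Pi.single_eq_same, Pi.zero_apply]
        rw [← Finset.sum_mul]
        have : ∑ i, w i * v i = 0 := hw
        rw [this, zero_mul]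
      · rw [Finset.sum_eq_zero]
        · rfl
        · intro i _
          rw [Pi.single_eq_of_ne hp]
    rw [e1, e2, sub_zero]
  rw [htot]
  exact hsum _

theorem nv_conj_le {v : Fin n → A} {ε : Matrix (Fin n) (Fin n) A} (hε : ε ∈ E n A) :
    nv C (ε *ᵥ v) ≤ nv C v := by
  intro c hc w hw
  obtain ⟨ε', hε', h1, h2⟩ := E_inv hε
  have h3 : (w ᵥ* ε') ⬝ᵥ (ε *ᵥ v) = 0 := by
    rw [dotProduct_mulVec, vecMul_vecMul, h2, vecMul_one, hw]
  have h4 := hc _ h3
  have h5 : ε' * U (ε *ᵥ v) (c • (w ᵥ* ε')) * ε = U v (c • w) := by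
    rw [conj_U h2, mulVec_mulVec, h2, one_mulVec, smul_vecMul, vecMul_vecMul, h2, vecMul_one]
  rw [← h5]
  exact mul_mem (mul_mem hε' h4) hε

/-- **Criterion (LG).** -/
theorem nv_eq_top (hn : 3 ≤ n) {v : Fin n → A}
    (h : ∀ m : Ideal C, m.IsMaximal → ∃ s : C, s ∉ m ∧ ∃ ε ∈ E n A, ∃ k : Fin n, ∃ y : A,
      y * (ε *ᵥ v) k = algebraMap C A s) : nv C v = ⊤ := by
  by_contra hne
  obtain ⟨m, hm, hle⟩ := Ideal.exists_le_maximal _ hne
  obtain ⟨s, hs, ε, hε, k, y, hy⟩ := h m hm
  exact hs (hle (nv_conj_le hε (mem_nv_of_left hn hy)))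

end central

/-! ## functoriality -/

theorem map_tr (f : A →+* B) (i j : Fin n) (r : A) :
    f.mapMatrix (tr i j r) = tr i j (f r) := by
  unfold tr
  rw [map_add, map_one]
  congr 1
  ext a b
  rw [RingHom.mapMatrix_apply, Matrix.map_apply, Matrix.single_apply, Matrix.single_apply]
  split_ifs <;> simp

theorem map_mem (f : A →+* B) {x : Matrix (Fin n) (Fin n) A} (hx : x ∈ E n A) :
    f.mapMatrix x ∈ E n B := by
  induction hx using Submonoid.closure_induction with
  | mem x hx =>
    obtain ⟨i, j, h, r, rfl⟩ := hx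
    rw [map_tr]; exact tr_mem h _
  | one => rw [map_one]; exact one_mem _
  | mul x y _ _ ihx ihy => rw [map_mul]; exact mul_mem ihx ihy

theorem exists_lift {f : A →+* B} (hf : Function.Surjective f) {y : Matrix (Fin n) (Fin n) B}
    (hy : y ∈ E n B) : ∃ x ∈ E n A, f.mapMatrix x = y := by
  induction hy using Submonoid.closure_induction with
  | mem x hx =>
    obtain ⟨i, j, h, r, rfl⟩ := hx
    obtain ⟨a, rfl⟩ := hf r
    exact ⟨tr i j a, tr_mem h _, map_tr f i j a⟩
  | one => exact ⟨1, one_mem _, map_one _⟩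
  | mul x y _ _ ihx ihy =>
    obtain ⟨x', hx', rfl⟩ := ihx
    obtain ⟨y', hy', rfl⟩ := ihy
    exact ⟨x' * y', mul_mem hx' hy', map_mul _ _ _⟩

/-! ## the group version -/

/-- the elementary subgroup -/
def EU (n : ℕ) (A : Type*) [Ring A] : Subgroup (Matrix (Fin n) (Fin n) A)ˣ :=
  Subgroup.closure {g | ∃ i j, i ≠ j ∧ ∃ r, (g : Matrix (Fin n) (Fin n) A) = tr i j r}

/-- transvection as a unit -/
def utr (i j : Fin n) (h : i ≠ j) (r : A) : (Matrix (Fin n) (Fin n) A)ˣ where
  val := tr i j r
  inv := tr i j (-r)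
  val_inv := tr_mul_neg h r
  inv_val := by simpa using tr_mul_neg h (-r)

theorem utr_mem (i j : Fin n) (h : i ≠ j) (r : A) : utr i j h r ∈ EU n A :=
  Subgroup.subset_closure ⟨i, j, h, r, rfl⟩

theorem mem_EU_iff {g : (Matrix (Fin n) (Fin n) A)ˣ} :
    g ∈ EU n A ↔ (g : Matrix (Fin n) (Fin n) A) ∈ E n A := by
  constructor
  · intro hg
    induction hg using Subgroup.closure_induction with
    | mem x hx =>
      obtain ⟨i, j, h, r, e⟩ := hx
      rw [e]; exact tr_mem h r
    | one => exact one_mem _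
    | mul x y _ _ ihx ihy => rw [Units.val_mul]; exact mul_mem ihx ihy
    | inv x _ ih =>
      obtain ⟨y, hy, h1, h2⟩ := E_inv ih
      have : ((x⁻¹ : (Matrix (Fin n) (Fin n) A)ˣ) : Matrix (Fin n) (Fin n) A) = y := by
        rw [Units.inv_eq_of_mul_eq_one_right h1]
      rw [this]; exact hy
  · intro hg
    have key : ∀ x ∈ E n A, ∃ u ∈ EU n A, (u : Matrix (Fin n) (Fin n) A) = x := by
      intro x hx
      induction hx using Submonoid.closure_induction with
      | mem x hx =>
        obtain ⟨i, j, h, r, rfl⟩ := hx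
        exact ⟨utr i j h r, utr_mem i j h r, rfl⟩
      | one => exact ⟨1, one_mem _, rfl⟩
      | mul x y _ _ ihx ihy =>
        obtain ⟨u, hu, rfl⟩ := ihx
        obtain ⟨u', hu', rfl⟩ := ihy
        exact ⟨u * u', mul_mem hu hu', rfl⟩
    obtain ⟨u, hu, e⟩ := key _ hg
    rwa [← Units.ext e]

/-- `E_n(A)` is normalised by every unit matrix -/
def Nor (n : ℕ) (A : Type*) [Ring A] : Prop :=
  ∀ g : (Matrix (Fin n) (Fin n) A)ˣ, ∀ x ∈ EU n A, g * x * g⁻¹ ∈ EU n A

/-- commutator -/
def cm {G : Type*} [Group G] (a b : G) : G := a * b * a⁻¹ * b⁻¹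

theorem utr_comm {i j k : Fin n} (hij : i ≠ j) (hik : i ≠ k) (hkj : k ≠ j) (r s : A) :
    cm (utr i k hik r) (utr k j hkj s) = utr i j hij (r * s) := by
  rw [cm, mul_inv_eq_iff_eq_mul, mul_inv_eq_iff_eq_mul]
  ext1
  simp only [Units.val_mul]
  change tr i k r * tr k j s = tr i j (r * s) * tr k j s * tr i k r
  unfold tr
  simp [mul_add, add_mul, hij, hij.symm, hik, hik.symm, hkj, hkj.symm]
  abel

/-- It is enough to look at commutators of elementary matrices. -/
theorem conj_mem_of_comm (hn : 3 ≤ n) (g : (Matrix (Fin n) (Fin n) A)ˣ)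
    (h : ∀ x₁ ∈ EU n A, ∀ x₂ ∈ EU n A, cm (g * x₁ * g⁻¹) (g * x₂ * g⁻¹) ∈ EU n A) :
    ∀ x ∈ EU n A, g * x * g⁻¹ ∈ EU n A := by
  intro x hx
  induction hx using Subgroup.closure_induction with
  | mem x hx =>
    obtain ⟨i, j, hij, r, e⟩ := hx
    obtain ⟨k, hk⟩ : ∃ k : Fin n, k ∉ ({i, j} : Finset (Fin n)) := by
      by_contra hcon
      push Not at hcon
      have h1 : (Finset.univ : Finset (Fin n)) ⊆ {i, j} := fun x _ => hcon x
      have h2 := Finset.card_le_card h1
      rw [Finset.card_univ, Fintype.card_fin] at h2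
      have h3 : ({i, j} : Finset (Fin n)).card ≤ 2 := Finset.card_le_two
      omega
    rw [Finset.mem_insert, Finset.mem_singleton, not_or] at hk
    have e' : x = cm (utr i k (Ne.symm hk.1) r) (utr k j hk.2 1) := by
      rw [utr_comm hij]
      ext1
      rw [e]
      change tr i j r = tr i j (r * 1)
      rw [mul_one]
    have := h _ (utr_mem i k (Ne.symm hk.1) r) _ (utr_mem k j hk.2 1)
    rw [e']
    convert this using 1
    simp only [cm]
    group
  | one => simp
  | mul x y _ _ ihx ihy =>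
    have : g * (x * y) * g⁻¹ = (g * x * g⁻¹) * (g * y * g⁻¹) := by group
    rw [this]; exact mul_mem ihx ihy
  | inv x _ ih =>
    have : g * x⁻¹ * g⁻¹ = (g * x * g⁻¹)⁻¹ := by group
    rw [this]; exact inv_mem ih

end Pool.Agent.V5helper35.PI
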