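import Pool.Agent.V5helper35.PI.Int
import Pool.Agent.V5helper35.PI.Cap2

set_option autoImplicit false

/-! # The induction on the degree of the representations -/

namespace Pool.Agent.V5helper35.PI

open Matrix

/-- `ρ` is a split representation attached to the left ideal `I` -/
def IsRep {R : Type*} [Ring R] {L : Type} [Field L] {k : ℕ} (ρ : R →+* Matrix (Fin k) (Fin k) L)
    (I : Ideal R) : Prop :=
  (∀ r, ρ r = 0 ↔ ∀ s, r * s ∈ I) ∧ Submodule.span L (Set.range ρ) = ⊤ ∧
    ∀ w, ρ w ≠ 0 → ∃ l : List (R × R), (l.map fun p => ρ p.1 * ρ w * ρ p.2).sum = 1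

/-- all simple modules have split representations of degree at most `d` -/
def Q (d : ℕ) (R : Type) [Ring R] : Prop :=
  ∀ I : Ideal R, I.IsMaximal → ∃ (L : Type) (_ : Field L) (k : ℕ)
    (ρ : R →+* Matrix (Fin k) (Fin k) L), k ≤ d ∧ IsRep ρ I

theorem rep_quot {R : Type*} [Ring R] (K : Ideal R) [K.IsTwoSided] (I' : Ideal (R ⧸ K))
    {L : Type} [Field L] {k : ℕ} (ρ : R →+* Matrix (Fin k) (Fin k) L)
    (h : IsRep ρ (I'.comap (Ideal.Quotient.mk K))) :
    ∃ ρ' : (R ⧸ K) →+* Matrix (Fin k) (Fin k) L, IsRep ρ' I' ∧ ∀ r, ρ' (Ideal.Quotient.mk K r) = ρ r := by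
  obtain ⟨h1, h2, h3⟩ := h
  have hK : ∀ a : R, a ∈ K → ρ a = 0 := by
    intro a ha
    rw [h1]
    intro s
    rw [Ideal.mem_comap]
    have : Ideal.Quotient.mk K (a * s) = 0 := by
      rw [Ideal.Quotient.eq_zero_iff_mem]; exact K.mul_mem_right _ ha
    rw [this]; exact zero_mem _
  refine ⟨Ideal.Quotient.lift K ρ hK, ⟨?_, ?_, ?_⟩, fun r => rfl⟩
  · intro r
    obtain ⟨r, rfl⟩ := Ideal.Quotient.mk_surjective r
    rw [Ideal.Quotient.lift_mk, h1]
    constructor
    · intro h s
      obtain ⟨s, rfl⟩ := Ideal.Quotient.mk_surjective s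
      rw [← map_mul]; exact h s
    · intro h s
      rw [Ideal.mem_comap, map_mul]; exact h _
  · have : Set.range (Ideal.Quotient.lift K ρ hK) = Set.range ρ := by
      ext y
      constructor
      · rintro ⟨r, rfl⟩
        obtain ⟨r, rfl⟩ := Ideal.Quotient.mk_surjective r
        exact ⟨r, rfl⟩
      · rintro ⟨r, rfl⟩
        exact ⟨Ideal.Quotient.mk K r, rfl⟩
    rw [this, h2]
  · intro w hw
    obtain ⟨w, rfl⟩ := Ideal.Quotient.mk_surjective w
    rw [Ideal.Quotient.lift_mk] at hw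
    obtain ⟨l, hl⟩ := h3 w hw
    refine ⟨l.map fun p => (Ideal.Quotient.mk K p.1, Ideal.Quotient.mk K p.2), ?_⟩
    rw [List.map_map, ← hl]
    rfl

theorem Q_quot {d : ℕ} {R : Type} [Ring R] (K : Ideal R) [K.IsTwoSided] (h : Q d R) :
    Q d (R ⧸ K) := by
  intro I' hI'
  have hI : (I'.comap (Ideal.Quotient.mk K)).IsMaximal :=
    Ideal.comap_isMaximal_of_surjective _ Ideal.Quotient.mk_surjective
  obtain ⟨L, _, k, ρ, hk, hρ⟩ := h _ hI
  obtain ⟨ρ', hρ', _⟩ := rep_quot K I' ρ hρ
  exact ⟨L, _, k, ρ', hk, hρ'⟩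

theorem nor_of_subsingleton (n : ℕ) (R : Type) [Ring R] [Subsingleton R] : Nor n R := by
  intro g x hx
  have : g * x * g⁻¹ = 1 := by
    ext i j
    exact Subsingleton.elim _ _
  rw [this]; exact one_mem _

theorem step_main {n : ℕ} (hn : 3 ≤ n) (d : ℕ)
    (IH : ∀ (R : Type) [Ring R], Q d R → Nor n R) (R : Type) [Ring R] (hQ : Q (d + 1) R)
    (hJ : Ring.jacobson R = ⊥) : Nor n R := by
  -- vanishing principle
  have eq_zero : ∀ u : R, (∀ (I : Ideal R) (L : Type) (_ : Field L) (k : ℕ)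
      (ρ : R →+* Matrix (Fin k) (Fin k) L), k ≤ d + 1 → IsRep ρ I → ρ u = 0) → u = 0 := by
    intro u hu
    rw [← Ideal.mem_bot, ← hJ, Ring.jacobson_eq_sInf_isMaximal, Ideal.mem_sInf]
    intro I hI
    obtain ⟨L, _, k, ρ, hk, hρ⟩ := hQ I hI
    have := (hρ.1 u).mp (hu I L _ k ρ hk hρ) 1
    rwa [mul_one] at this
  have hd : 0 < d + 1 := Nat.succ_pos d
  have small : ∀ k, k ≤ d + 1 → k ≠ d + 1 → k * k < (d + 1) * (d + 1) := by
    intro k hk hk'
    have : k < d + 1 := lt_of_le_of_ne hk hk'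
    exact Nat.mul_self_lt_mul_self this
  let alg : Algebra (Subring.center R) R := RingHom.toAlgebra' (Subring.center R).subtype (by
    intro c x
    exact (Subring.mem_center_iff.mp c.2 x).symm)
  have smul_def : ∀ (c : Subring.center R) (r : R), c • r = (c : R) * r := fun c r => rfl
  obtain ⟨G, hG⟩ : ∃ G : Set (Subring.center R), G = {c : Subring.center R |
    ∃ (Y : List (R × R ×
    (Fin ((d + 1) * (d + 1)) → R))) (x x' : Fin ((d + 1) * (d + 1)) → R), (c : R) = gam Y x x'} :=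
    ⟨_, rfl⟩
  have central : ∀ (Y : List (R × R × (Fin ((d + 1) * (d + 1)) → R)))
      (x x' : Fin ((d + 1) * (d + 1)) → R), gam Y x x' ∈ Subring.center R := by
    intro Y x x'
    rw [Subring.mem_center_iff]
    intro g
    rw [← sub_eq_zero]
    apply eq_zero
    intro I L _ k ρ hk hρ
    rw [map_sub, map_mul, map_mul]
    by_cases hkd : k = d + 1
    · subst hkd
      obtain ⟨l, hl⟩ := rep_scalar hd ρ Y x
      rw [hl x', mul_smul_comm, smul_mul_assoc, mul_one, one_mul, sub_self]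
    · rw [rep_small (small k hk hkd) ρ Y x x', mul_zero, zero_mul, sub_self]
  have sys : Sys R G := by
    intro γ hγ
    rw [hG] at hγ
    obtain ⟨Y, x, x', hγ⟩ := hγ
    refine ⟨(d + 1) * (d + 1), x', ?_⟩
    intro x₀
    refine ⟨fun j => ⟨gam Y x (Function.update x' j x₀), central _ _ _⟩, ?_, ?_⟩
    · intro j
      apply Ideal.subset_span
      rw [hG]
      exact ⟨Y, x, _, rfl⟩
    · rw [← sub_eq_zero]
      apply eq_zero
      intro I L _ k ρ hk hρ
      rw [map_sub, map_sum]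
      simp only [smul_def]
      rw [hγ, map_mul]
      have e : ∀ j, ρ (gam Y x (Function.update x' j x₀) * x' j) =
        ρ (gam Y x (Function.update x' j x₀)) * ρ (x' j) := fun j => map_mul _ _ _
      simp only [e]
      by_cases hkd : k = d + 1
      · subst hkd
        obtain ⟨l, hl⟩ := rep_scalar hd ρ Y x
        simp only [hl]
        have h1 := cramer_rel (eb L (d + 1)) (ρ ∘ x') (ρ x₀)
        rw [smul_mul_assoc, one_mul, mul_comm, ← smul_smul, h1, Finset.smul_sum, sub_eq_zero]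
        refine Finset.sum_congr rfl ?_
        intro j _
        rw [smul_mul_assoc, one_mul, smul_smul, mul_comm l]
        congr 3
        funext i
        by_cases hij : i = j
        · subst hij; simp
        · simp [hij]
      · simp only [rep_small (small k hk hkd) ρ Y x, zero_mul, Finset.sum_const_zero, sub_self]
  refine main_lemma hn (hyp_of_sys sys) ?_
  apply IH
  intro I' hI'
  have hI : (I'.comap (Ideal.Quotient.mk (IR R (Ideal.span G)))).IsMaximal :=
    Ideal.comap_isMaximal_of_surjective _ Ideal.Quotient.mk_surjective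
  obtain ⟨L, _, k, ρ, hk, hρ⟩ := hQ _ hI
  obtain ⟨ρ', hρ', hρρ⟩ := rep_quot _ I' ρ hρ
  refine ⟨L, _, k, ρ', ?_, hρ'⟩
  by_contra hcon
  have hkd : k = d + 1 := by omega
  subst hkd
  obtain ⟨Y, x, hne⟩ := exists_gam_ne hd ρ hρ.2.1 hρ.2.2
  apply hne
  rw [← hρρ]
  have : Ideal.Quotient.mk (IR R (Ideal.span G)) (gam Y x x) = 0 := by
    rw [Ideal.Quotient.eq_zero_iff_mem]
    have h1 : (⟨gam Y x x, central Y x x⟩ : Subring.center R) ∈ Ideal.span G := by
      apply Ideal.subset_span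
      rw [hG]
      exact ⟨Y, x, x, rfl⟩
    exact algebraMap_mem_IR (R := R) h1
  rw [this, map_zero]

theorem nor_of_Q {n : ℕ} (hn : 3 ≤ n) (d : ℕ) : ∀ (R : Type) [Ring R], Q d R → Nor n R := by
  induction d with
  | zero =>
    intro R _ hQ
    have : Subsingleton R := by
      by_contra hcon
      rw [not_subsingleton_iff_nontrivial] at hcon
      obtain ⟨I, hI⟩ := Ideal.exists_maximal R
      obtain ⟨L, _, k, ρ, hk, hρ⟩ := hQ I hI
      have hk0 : k = 0 := by omega
      subst hk0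
      have h1 : ρ 1 = 0 := by
        ext i
        exact i.elim0
      have := (hρ.1 1).mp h1 1
      rw [mul_one] at this
      exact hI.ne_top ((Ideal.eq_top_iff_one _).mpr this)
    exact nor_of_subsingleton n R
  | succ d IH =>
    intro R _ hQ
    refine nor_of_quot hn (Ideal.Quotient.mk (Ring.jacobson R)) Ideal.Quotient.mk_surjective ?_
      (step_main hn d IH _ (Q_quot _ hQ) (Ring.jacobson_quotient_jacobson R))
    intro a ha
    rw [Ideal.Quotient.eq_zero_iff_mem, ← Ideal.jacobson_bot] at ha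
    obtain ⟨s, hs⟩ := Ideal.exists_mul_sub_mem_of_sub_one_mem_jacobson (1 + a) (by
      rw [add_sub_cancel_left]; exact ha)
    rw [Ideal.mem_bot, sub_eq_zero] at hs
    exact ⟨s, hs⟩

end Pool.Agent.V5helper35.PI
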