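import Mathlib

set_option autoImplicit false

/-! # Stable range one for artinian rings -/

namespace Pool.Agent.V5helper35.PI

/-- stable range one (left version) -/
def SR1 (A : Type*) [Ring A] : Prop :=
  ∀ x y z t : A, z * x + t * y = 1 → ∃ c u : A, u * (x + c * y) = 1

theorem sr_lin {D V : Type*} [DivisionRing D] [AddCommGroup V] [Module D V]
    [FiniteDimensional D V] (f g : V →ₗ[D] V) (h : LinearMap.range f ⊔ LinearMap.range g = ⊤) :
    ∃ c : V →ₗ[D] V, Function.Surjective (f + g ∘ₗ c) := by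
  obtain ⟨K', hK'⟩ := Submodule.exists_isCompl (LinearMap.ker f)
  obtain ⟨Q, hQ⟩ := Submodule.exists_isCompl (LinearMap.range f ⊓ LinearMap.range g)
  obtain ⟨W, hW⟩ : ∃ W, W = Q ⊓ LinearMap.range g := ⟨_, rfl⟩
  have hWg : W ≤ LinearMap.range g := by rw [hW]; exact inf_le_right
  have hdisj : LinearMap.range f ⊓ W = ⊥ := by
    rw [hW, ← le_bot_iff]
    rintro x ⟨h1, h2, h3⟩
    have : x ∈ (LinearMap.range f ⊓ LinearMap.range g) ⊓ Q := ⟨⟨h1, h3⟩, h2⟩
    rw [hQ.inf_eq_bot] at this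
    exact this
  have hg : (LinearMap.range f ⊓ LinearMap.range g) ⊔ W = LinearMap.range g := by
    rw [hW, ← sup_inf_assoc_of_le _ (inf_le_right : LinearMap.range f ⊓ LinearMap.range g ≤ _),
      hQ.sup_eq_top, top_inf_eq]
  have hsup : LinearMap.range f ⊔ W = ⊤ := by
    apply le_antisymm le_top
    rw [← h, ← hg]
    refine sup_le le_sup_left (sup_le ?_ le_sup_right)
    exact inf_le_left.trans le_sup_left
  have hfin : Module.finrank D (LinearMap.ker f) = Module.finrank D W := by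
    have h1 := f.finrank_range_add_finrank_ker
    have h2 := Submodule.finrank_sup_add_finrank_inf_eq (LinearMap.range f) W
    rw [hsup, hdisj, finrank_top, finrank_bot] at h2
    omega
  obtain ⟨e⟩ := FiniteDimensional.nonempty_linearEquiv_of_finrank_eq hfin
  obtain ⟨s, hs⟩ := g.rangeRestrict.exists_rightInverse_of_surjective
    (LinearMap.range_eq_top.mpr g.surjective_rangeRestrict)
  obtain ⟨pr, hpr, hpr'⟩ : ∃ pr : V →ₗ[D] LinearMap.ker f, (∀ x : LinearMap.ker f, pr x = x) ∧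
      (∀ x ∈ K', pr x = 0) := by
    refine ⟨Submodule.projectionOnto _ _ hK', ?_, ?_⟩
    · intro x; exact Submodule.projectionOnto_apply_left hK' x
    · intro x hx; exact Submodule.projectionOnto_apply_of_mem_right hK' hx
  refine ⟨s ∘ₗ (Submodule.inclusion hWg) ∘ₗ e.toLinearMap ∘ₗ pr, ?_⟩
  intro v
  have hv : v ∈ LinearMap.range f ⊔ W := by rw [hsup]; trivial
  obtain ⟨_, ⟨a, rfl⟩, w, hw, rfl⟩ := Submodule.mem_sup.mp hv
  have ha : a ∈ LinearMap.ker f ⊔ K' := by rw [hK'.sup_eq_top]; trivial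
  obtain ⟨k, hk, k', hk', rfl⟩ := Submodule.mem_sup.mp ha
  refine ⟨k' + ((e.symm ⟨w, hw⟩ : LinearMap.ker f) : V), ?_⟩
  have hgs : ∀ y : LinearMap.range g, g (s y) = y := by
    intro y
    have := LinearMap.congr_fun hs y
    exact congrArg Subtype.val this
  have h0 : f ((e.symm ⟨w, hw⟩ : LinearMap.ker f) : V) = 0 := (e.symm ⟨w, hw⟩).2
  have h0' : f k = 0 := hk
  simp only [LinearMap.add_apply, LinearMap.comp_apply, map_add, hpr' k' hk', hpr, h0, h0',
    map_zero, zero_add, add_zero]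
  congr 1
  rw [hgs]
  simp

open Matrix in
theorem sr_matrix (D : Type*) [DivisionRing D] (d : ℕ) : SR1 (Matrix (Fin d) (Fin d) D) := by
  intro x y z t h
  obtain ⟨c, hc⟩ := sr_lin (Matrix.toLinearMapRight' x) (Matrix.toLinearMapRight' y) (by
    apply le_antisymm le_top
    intro v _
    have : v = (v ᵥ* z) ᵥ* x + (v ᵥ* t) ᵥ* y := by
      rw [vecMul_vecMul, vecMul_vecMul, ← vecMul_add, h, vecMul_one]
    rw [this]
    exact Submodule.add_mem_sup ⟨v ᵥ* z, rfl⟩ ⟨v ᵥ* t, rfl⟩)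
  obtain ⟨u, hu⟩ := LinearMap.exists_rightInverse_of_surjective _ (LinearMap.range_eq_top.mpr hc)
  refine ⟨LinearMap.toMatrixRight' c, LinearMap.toMatrixRight' u, ?_⟩
  apply Matrix.toLinearMapRight'.injective
  rw [Matrix.toLinearMapRight'_mul, map_add, Matrix.toLinearMapRight'_mul,
    Matrix.toLinearMapRight'_one, ← hu]
  simp

theorem sr_pi {ι : Type*} {A : ι → Type*} [∀ i, Ring (A i)] (h : ∀ i, SR1 (A i)) :
    SR1 (Π i, A i) := by
  intro x y z t hh
  have : ∀ i, ∃ c u : A i, u * (x i + c * y i) = 1 := fun i =>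
    h i (x i) (y i) (z i) (t i) (congrFun hh i)
  choose c u hcu using this
  exact ⟨c, u, funext hcu⟩

theorem sr_equiv {A B : Type*} [Ring A] [Ring B] (e : A ≃+* B) (h : SR1 B) : SR1 A := by
  intro x y z t hh
  obtain ⟨c, u, hcu⟩ := h (e x) (e y) (e z) (e t) (by
    rw [← map_mul, ← map_mul, ← map_add, hh, map_one])
  refine ⟨e.symm c, e.symm u, ?_⟩
  apply e.injective
  simp [hcu]

theorem sr_of_jacobson {A : Type*} [Ring A] (h : SR1 (A ⧸ Ring.jacobson A)) : SR1 A := by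
  intro x y z t hh
  obtain ⟨c, u, hcu⟩ := h (Ideal.Quotient.mk _ x) (Ideal.Quotient.mk _ y) (Ideal.Quotient.mk _ z)
    (Ideal.Quotient.mk _ t) (by rw [← map_mul, ← map_mul, ← map_add, hh, map_one])
  obtain ⟨c, rfl⟩ := Ideal.Quotient.mk_surjective c
  obtain ⟨u, rfl⟩ := Ideal.Quotient.mk_surjective u
  rw [← map_mul, ← map_add, ← map_mul, ← map_one (Ideal.Quotient.mk _), Ideal.Quotient.eq,
    ← Ideal.jacobson_bot] at hcu
  obtain ⟨s, hs⟩ := Ideal.exists_mul_sub_mem_of_sub_one_mem_jacobson _ hcu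
  refine ⟨c, s * u, ?_⟩
  rw [Ideal.mem_bot, sub_eq_zero] at hs
  rw [mul_assoc]
  exact hs

theorem sr_semisimple (A : Type*) [Ring A] [IsSemisimpleRing A] : SR1 A := by
  obtain ⟨n, D, d, _, _, ⟨e⟩⟩ := IsSemisimpleRing.exists_ringEquiv_pi_matrix_divisionRing A
  exact sr_equiv e (sr_pi fun i => sr_matrix (D i) (d i))

theorem sr_artinian (A : Type*) [Ring A] [IsArtinianRing A] : SR1 A :=
  sr_of_jacobson (sr_semisimple _)

end Pool.Agent.V5helper35.PI
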