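import Pool.Agent.V5helper35.PI.Main
import Pool.Agent.V5helper35.PI.SR

set_option autoImplicit false

/-! # Integrality over an ideal with Cramer-type relations -/

namespace Pool.Agent.V5helper35.PI

open Polynomial

variable {R C : Type*} [Ring R] [CommRing C] [Algebra C R]

theorem exists_poly {M : Submodule C R} (hM : M.FG) (b : R) (𝔟 : Ideal C)
    (h : ∀ x ∈ M, b * x ∈ 𝔟 • M) : ∃ p : C[X], p.Monic ∧
      (∀ k < p.natDegree, p.coeff k ∈ 𝔟) ∧ ∀ x ∈ M, aeval b p * x = 0 := by
  have hle : (𝔟 • M : Submodule C R) ≤ M := Submodule.smul_le_right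
  obtain ⟨f, hf⟩ : ∃ f : M →ₗ[C] M, ∀ x : M, ((f x : M) : R) = b * x :=
    ⟨(LinearMap.mulLeft C b).restrict (fun x hx => hle (h x hx)), fun x => rfl⟩
  have hfin : Module.Finite C M := Module.Finite.iff_fg.mpr hM
  obtain ⟨p, hp, _, hc, h0⟩ :=
    LinearMap.exists_monic_and_natDegree_eq_and_coeff_mem_pow_and_aeval_eq_zero C f 𝔟 (by
      rintro _ ⟨x, rfl⟩
      rw [Submodule.mem_smul_top_iff, hf]
      exact h x x.2)
  refine ⟨p, hp, ?_, ?_⟩
  · intro k hk
    exact Ideal.pow_le_self (by omega) (hc k)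
  · intro x hx
    have hpow : ∀ k : ℕ, ∀ x : M, (((f ^ k) x : M) : R) = b ^ k * x := by
      intro k
      induction k with
      | zero => intro x; simp
      | succ k ih =>
        intro x
        rw [pow_succ, Module.End.mul_apply, ih, hf, pow_succ, mul_assoc]
    have key : ∀ q : C[X], ∀ x : M, ((aeval f q x : M) : R) = aeval b q * x := by
      intro q
      induction q using Polynomial.induction_on' with
      | add p q hp hq => intro x; rw [map_add, map_add, LinearMap.add_apply, Submodule.coe_add, hp, hq,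
          add_mul]
      | monomial k c =>
        intro x
        rw [aeval_monomial, aeval_monomial, ← Algebra.smul_def, ← Algebra.smul_def,
          LinearMap.smul_apply, Submodule.coe_smul, hpow, smul_mul_assoc]
    have := key p ⟨x, hx⟩
    rw [h0] at this
    simpa using this.symm

theorem left_of_root {b : R} {q : C[X]} (hq : aeval b q = 0) :
    ∃ y : R, y * (1 + b) = algebraMap C R (-(q.eval (-1))) := by
  obtain ⟨q₁, h1⟩ : (X - Polynomial.C (-1 : C)) ∣ q - Polynomial.C (q.eval (-1)) := X_sub_C_dvd_sub_C_eval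
  refine ⟨aeval b q₁, ?_⟩
  have h2 : aeval b (q - Polynomial.C (q.eval (-1))) =
      aeval b (q₁ * (X - Polynomial.C (-1 : C))) := by
    rw [h1, mul_comm]
  rw [map_sub, hq, map_mul, map_sub, aeval_X, aeval_C, aeval_C, zero_sub, map_neg, map_one] at h2
  rw [map_neg, h2]
  congr 1
  abel

theorem eval_sub_pow_mem {p : C[X]} (hp : p.Monic) {𝔟 : Ideal C}
    (h : ∀ k < p.natDegree, p.coeff k ∈ 𝔟) (r : C) : p.eval r - r ^ p.natDegree ∈ 𝔟 := by
  rw [eval_eq_sum_range, Finset.sum_range_succ]
  have : p.coeff p.natDegree = 1 := hp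
  rw [this, one_mul, add_sub_cancel_right]
  refine Ideal.sum_mem _ ?_
  intro k hk
  exact 𝔟.mul_mem_right _ (h k (Finset.mem_range.mp hk))

/-- a set of central elements with Cramer-type relations -/
def Sys (R : Type*) [Ring R] {C : Type*} [CommRing C] [Algebra C R] (G : Set C) : Prop :=
  ∀ γ ∈ G, ∃ (N : ℕ) (x' : Fin N → R), ∀ x₀ : R, ∃ a : Fin N → C,
    (∀ j, a j ∈ Ideal.span G) ∧ γ • x₀ = ∑ j, a j • x' j

theorem fg_of_mem {G : Set C} (hG : Sys R G) : ∀ b ∈ IR R (Ideal.span G),
    ∃ M : Submodule C R, M.FG ∧ ∀ x : R, b * x ∈ Ideal.span G • M := by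
  intro b hb
  rw [mem_IR] at hb
  refine Submodule.smul_induction_on hb ?_ ?_
  · intro c hc
    have key : ∀ r : R, ∃ M : Submodule C R, M.FG ∧ ∀ x : R, (c • r) * x ∈ Ideal.span G • M := by
      induction hc using Submodule.span_induction with
      | mem γ hγ =>
        intro r
        obtain ⟨N, x', h⟩ := hG γ hγ
        refine ⟨Submodule.span C (Set.range x'), Submodule.fg_span (Set.finite_range x'), ?_⟩
        intro x
        obtain ⟨a, ha, e⟩ := h (r * x)
        rw [smul_mul_assoc, e]
        refine Submodule.sum_mem _ ?_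
        intro j _
        exact Submodule.smul_mem_smul (ha j) (Submodule.subset_span ⟨j, rfl⟩)
      | zero => intro r; exact ⟨⊥, Submodule.fg_bot, by simp⟩
      | add c c' _ _ h1 h2 =>
        intro r
        obtain ⟨M, hM, h1⟩ := h1 r
        obtain ⟨M', hM', h2⟩ := h2 r
        refine ⟨M ⊔ M', hM.sup hM', ?_⟩
        intro x
        rw [add_smul, add_mul]
        exact add_mem (Submodule.smul_mono le_rfl le_sup_left (h1 x))
          (Submodule.smul_mono le_rfl le_sup_right (h2 x))
      | smul c' c _ h1 =>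
        intro r
        obtain ⟨M, hM, h1⟩ := h1 r
        refine ⟨M, hM, ?_⟩
        intro x
        rw [smul_assoc, smul_mul_assoc]
        exact Submodule.smul_mem _ _ (h1 x)
    intro r _
    exact key r
  · rintro b b' ⟨M, hM, h1⟩ ⟨M', hM', h2⟩
    refine ⟨M ⊔ M', hM.sup hM', ?_⟩
    intro x
    rw [add_mul]
    exact add_mem (Submodule.smul_mono le_rfl le_sup_left (h1 x))
      (Submodule.smul_mono le_rfl le_sup_right (h2 x))

theorem exists_not_mem {G : Set C} {m : Ideal C} (hm : ¬ Ideal.span G ≤ m) : ∃ γ ∈ G, γ ∉ m := by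
  by_contra hcon
  push Not at hcon
  exact hm (Ideal.span_le.mpr hcon)

theorem artinian_quot {G : Set C} (hG : Sys R G) {m : Ideal C} (hmax : m.IsMaximal)
    (hm : ¬ Ideal.span G ≤ m) : IsArtinianRing (R ⧸ IR R m) := by
  obtain ⟨γ, hγ, hγm⟩ := exists_not_mem hm
  obtain ⟨N, x', h⟩ := hG γ hγ
  let _ : Field (C ⧸ m) := Ideal.Quotient.field m
  let φ : C ⧸ m →+* R ⧸ IR R m := Ideal.Quotient.lift m
    ((Ideal.Quotient.mk (IR R m)).comp (algebraMap C R)) (by
      intro c hc
      rw [RingHom.comp_apply, Ideal.Quotient.eq_zero_iff_mem]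
      exact algebraMap_mem_IR hc)
  let _ : Algebra (C ⧸ m) (R ⧸ IR R m) := RingHom.toAlgebra' φ (by
    intro c x
    obtain ⟨c, rfl⟩ := Ideal.Quotient.mk_surjective c
    obtain ⟨x, rfl⟩ := Ideal.Quotient.mk_surjective x
    change Ideal.Quotient.mk _ (algebraMap C R c) * _ = _ * Ideal.Quotient.mk _ (algebraMap C R c)
    rw [← map_mul, ← map_mul, Algebra.commutes])
  have hsm : ∀ (c : C) (r : R), (Ideal.Quotient.mk m c) • (Ideal.Quotient.mk (IR R m) r) =
      Ideal.Quotient.mk (IR R m) (c • r) := by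
    intro c r
    rw [Algebra.smul_def, Algebra.smul_def, map_mul]
    rfl
  have hfin : Module.Finite (C ⧸ m) (R ⧸ IR R m) := by
    rw [Module.finite_def, Submodule.fg_def]
    refine ⟨Set.range fun j => Ideal.Quotient.mk (IR R m) (x' j), Set.finite_range _, ?_⟩
    rw [eq_top_iff]
    intro y _
    obtain ⟨r, rfl⟩ := Ideal.Quotient.mk_surjective y
    obtain ⟨a, _, e⟩ := h r
    obtain ⟨c', hc'⟩ : ∃ c' : C, c' * γ - 1 ∈ m := by
      obtain ⟨c', x, hx, e⟩ := hmax.exists_inv hγm
      refine ⟨c', ?_⟩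
      have : c' * γ - 1 = -x := by rw [← e]; ring
      rw [this]; exact m.neg_mem hx
    have h1 : Ideal.Quotient.mk (IR R m) r = Ideal.Quotient.mk m c' •
        Ideal.Quotient.mk (IR R m) (γ • r) := by
      rw [hsm, smul_smul, eq_comm, Ideal.Quotient.eq]
      have : (c' * γ) • r - r = (c' * γ - 1) • r := by rw [sub_smul, one_smul]
      rw [this]
      exact smul_mem_IR hc' _
    rw [h1, e, map_sum]
    refine Submodule.smul_mem _ _ (Submodule.sum_mem _ ?_)
    intro j _
    rw [← hsm]
    exact Submodule.smul_mem _ _ (Submodule.subset_span ⟨j, rfl⟩)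
  have h2 : IsArtinian (C ⧸ m) (R ⧸ IR R m) := inferInstance
  exact isArtinian_of_tower (C ⧸ m) h2

theorem hyp_of_sys {G : Set C} (hG : Sys R G) : Hyp R (Ideal.span G) where
  int1 := by
    intro a ha
    obtain ⟨M, hM, hb⟩ := fg_of_mem hG a ha
    obtain ⟨p, hp, hc, h0⟩ := exists_poly hM a (Ideal.span G) (fun x _ => hb x)
    have ha1 : a ∈ M := by
      have := hb 1
      rw [mul_one] at this
      exact Submodule.smul_le_right this
    have hq : aeval a (p * X) = 0 := by
      rw [map_mul, aeval_X]; exact h0 a ha1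
    obtain ⟨y, hy⟩ := left_of_root hq
    have h1 := eval_sub_pow_mem hp hc (-1)
    refine ⟨((-1 : C) ^ p.natDegree) • y, (-1) ^ p.natDegree * (p.eval (-1) - (-1) ^ p.natDegree),
      Ideal.mul_mem_left _ _ h1, ?_⟩
    rw [smul_mul_assoc, hy, Algebra.smul_def, ← map_mul]
    congr 1
    rw [eval_mul, eval_X]
    have h2 : ((-1 : C) ^ p.natDegree) * (-1) ^ p.natDegree = 1 := by
      rw [← mul_pow]; simp
    linear_combination h2
  sr := by
    intro m hmax hm x y z t h
    have := artinian_quot hG hmax hm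
    obtain ⟨c, u, hcu⟩ := sr_artinian (R ⧸ IR R m) (Ideal.Quotient.mk _ x) (Ideal.Quotient.mk _ y)
      (Ideal.Quotient.mk _ z) (Ideal.Quotient.mk _ t) (by
        rw [← map_mul, ← map_mul, ← map_add, ← map_one (Ideal.Quotient.mk _), Ideal.Quotient.eq]
        exact h)
    obtain ⟨c, rfl⟩ := Ideal.Quotient.mk_surjective c
    obtain ⟨u, rfl⟩ := Ideal.Quotient.mk_surjective u
    rw [← map_mul, ← map_add, ← map_mul, ← map_one (Ideal.Quotient.mk _), Ideal.Quotient.eq] at hcu
    exact ⟨c, u, hcu⟩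
  int2 := by
    intro m hmax hm b hb
    obtain ⟨γ, hγ, hγm⟩ := exists_not_mem hm
    obtain ⟨N, x', h⟩ := hG γ hγ
    obtain ⟨M, hMdef⟩ : ∃ M, M = Submodule.span C (Set.range x') := ⟨_, rfl⟩
    have hM : M.FG := by rw [hMdef]; exact Submodule.fg_span (Set.finite_range x')
    have hγM : ∀ r : R, γ • r ∈ M := by
      intro r
      obtain ⟨a, _, e⟩ := h r
      rw [e, hMdef]
      refine Submodule.sum_mem _ ?_
      intro j _
      exact Submodule.smul_mem _ _ (Submodule.subset_span ⟨j, rfl⟩)
    have hbM : ∀ x ∈ M, (γ • b) * x ∈ m • M := by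
      intro x _
      rw [mem_IR] at hb
      refine Submodule.smul_induction_on hb ?_ ?_
      · intro c hc r _
        have : (γ • c • r) * x = c • (γ • (r * x)) := by
          rw [smul_comm, smul_mul_assoc, smul_mul_assoc]
        rw [this]
        exact Submodule.smul_mem_smul hc (hγM _)
      · intro b b' h1 h2
        rw [smul_add, add_mul]
        exact add_mem h1 h2
    obtain ⟨p, hp, hc, h0⟩ := exists_poly hM (γ • b) m hbM
    have hq : aeval b (Polynomial.C γ * p.comp (Polynomial.C γ * X)) = 0 := by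
      rw [map_mul, aeval_C, aeval_comp, map_mul, aeval_C, aeval_X, ← Algebra.smul_def,
        ← Algebra.smul_def]
      have := h0 (γ • 1) (hγM 1)
      rw [mul_smul_comm, mul_one] at this
      exact this
    obtain ⟨y, hy⟩ := left_of_root hq
    refine ⟨y, _, ?_, hy⟩
    rw [eval_mul, eval_C, eval_comp, eval_mul, eval_C, eval_X]
    intro hcon
    rw [neg_mem_iff] at hcon
    rcases hmax.isPrime.mem_or_mem hcon with h1 | h1
    · exact hγm h1
    · have h2 := eval_sub_pow_mem hp hc (γ * -1)
      have h3 := m.sub_mem h1 h2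
      rw [sub_sub_cancel] at h3
      have h4 := hmax.isPrime.mem_of_pow_mem _ h3
      apply hγm
      have := m.neg_mem h4
      simpa using this

end Pool.Agent.V5helper35.PI
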