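import Pool.Agent.V5helper35.PI.El

set_option autoImplicit false

/-! # Lifting normality of `E_n` modulo a left quasi-invertible ideal -/

namespace Pool.Agent.V5helper35.PI

open Matrix

variable {n : ℕ} {A B : Type*} [Ring A] [Ring B]

theorem tr_mulVec (i j : Fin n) (r : A) (v : Fin n → A) :
    tr i j r *ᵥ v = v + Pi.single i (r * v j) := by
  unfold tr
  rw [add_mulVec, one_mulVec]
  congr 1
  ext p
  rw [mulVec, dotProduct]
  by_cases hp : p = i
  · subst hp
    rw [Finset.sum_eq_single j]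
    · simp
    · intro b _ hb; simp [Ne.symm hb]
    · simp
  · rw [Pi.single_eq_of_ne hp]
    apply Finset.sum_eq_zero
    intro b _
    simp [Ne.symm hp]

/-- invertible diagonal matrices -/
def dg (n : ℕ) (A : Type*) [Ring A] : (Fin n → Aˣ) →* (Matrix (Fin n) (Fin n) A)ˣ :=
  (Units.map (Matrix.diagonalRingHom (Fin n) A).toMonoidHom).comp
    (MulEquiv.piUnits (M := fun _ : Fin n => A)).symm.toMonoidHom

theorem dg_val (d : Fin n → Aˣ) :
    ((dg n A d : (Matrix (Fin n) (Fin n) A)ˣ) : Matrix (Fin n) (Fin n) A) =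
      Matrix.diagonal (fun i => (d i : A)) := rfl

theorem dg_inv_val (d : Fin n → Aˣ) :
    (((dg n A d)⁻¹ : (Matrix (Fin n) (Fin n) A)ˣ) : Matrix (Fin n) (Fin n) A) =
      Matrix.diagonal (fun i => (((d i)⁻¹ : Aˣ) : A)) := rfl

/-- diagonals in the elementary group -/
def D0 (n : ℕ) (A : Type*) [Ring A] : Subgroup (Fin n → Aˣ) := (EU n A).comap (dg n A)

theorem mulSingle_mem {i j : Fin n} (h : i ≠ j) (a : Aˣ) :
    (Pi.mulSingle i a * Pi.mulSingle j a⁻¹ : Fin n → Aˣ) ∈ D0 n A := by
  unfold D0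
  rw [Subgroup.mem_comap, mem_EU_iff, dg_val]
  have : Matrix.diagonal (fun p => (((Pi.mulSingle i a * Pi.mulSingle j a⁻¹ : Fin n → Aˣ) p : Aˣ) : A))
      = tr i j (a : A) * tr j i (-((a⁻¹ : Aˣ) : A)) * tr i j ((a : A) - 1) * tr j i 1 * tr i j (-1) := by
    apply Matrix.ext_of_mulVec_single
    intro q
    have key : ∀ v : Fin n → A,
        Matrix.diagonal (fun p => (((Pi.mulSingle i a * Pi.mulSingle j a⁻¹ : Fin n → Aˣ) p : Aˣ) : A))
          *ᵥ v = (tr i j (a : A) * tr j i (-((a⁻¹ : Aˣ) : A)) * tr i j ((a : A) - 1) * tr j i 1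
            * tr i j (-1)) *ᵥ v := by
      intro v
      rw [← mulVec_mulVec, ← mulVec_mulVec, ← mulVec_mulVec, ← mulVec_mulVec]
      simp only [tr_mulVec]
      ext p
      rw [mulVec_diagonal]
      have ha : ∀ x : A, ((a⁻¹ : Aˣ) : A) * ((a : A) * x) = x := fun x => by
        rw [← mul_assoc, Units.inv_mul, one_mul]
      have ha' : ∀ x : A, (a : A) * (((a⁻¹ : Aˣ) : A) * x) = x := fun x => by
        rw [← mul_assoc, Units.mul_inv, one_mul]
      by_cases hpi : p = i
      · subst hpi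
        simp [Pi.mulSingle_eq_same, Pi.mulSingle_eq_of_ne h, Pi.single_eq_of_ne h,
          Pi.single_eq_of_ne h.symm, mul_add, sub_mul, ha, ha', mul_sub]
        abel
      · by_cases hpj : p = j
        · subst hpj
          simp [Pi.mulSingle_eq_same, Pi.mulSingle_eq_of_ne hpi, Pi.single_eq_of_ne h,
            Pi.single_eq_of_ne h.symm, mul_add, sub_mul, ha, ha', mul_sub]
          abel
        · simp [Pi.mulSingle_eq_of_ne hpi, Pi.mulSingle_eq_of_ne hpj, Pi.single_eq_of_ne hpi,
            Pi.single_eq_of_ne hpj]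
    exact key _
  rw [this]
  exact mul_mem (mul_mem (mul_mem (mul_mem (tr_mem h _) (tr_mem h.symm _)) (tr_mem h _))
    (tr_mem h.symm _)) (tr_mem h _)

theorem cm_mem {G : Type*} [Group G] {H : Subgroup G} {a b : G} (ha : a ∈ H) (hb : b ∈ H) :
    cm a b ∈ H := mul_mem (mul_mem (mul_mem ha hb) (inv_mem ha)) (inv_mem hb)

theorem mulSingle_cm_mem (hn : 3 ≤ n) (i : Fin n) (a b : Aˣ) :
    (Pi.mulSingle i (cm a b) : Fin n → Aˣ) ∈ D0 n A := by
  obtain ⟨j, hj⟩ : ∃ j : Fin n, j ≠ i := by
    have : Nontrivial (Fin n) := Fin.nontrivial_iff_two_le.mpr (by omega)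
    exact exists_ne i
  obtain ⟨l, hl⟩ : ∃ l : Fin n, l ∉ ({i, j} : Finset (Fin n)) := by
    by_contra hcon
    push Not at hcon
    have h1 : (Finset.univ : Finset (Fin n)) ⊆ {i, j} := fun x _ => hcon x
    have h2 := Finset.card_le_card h1
    rw [Finset.card_univ, Fintype.card_fin] at h2
    have h3 : ({i, j} : Finset (Fin n)).card ≤ 2 := Finset.card_le_two
    omega
  rw [Finset.mem_insert, Finset.mem_singleton, not_or] at hl
  have e : (Pi.mulSingle i (cm a b) : Fin n → Aˣ) =
      cm (Pi.mulSingle i a * Pi.mulSingle j a⁻¹) (Pi.mulSingle i b * Pi.mulSingle l b⁻¹) := by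
    funext p
    unfold cm
    simp only [Pi.mul_apply, Pi.inv_apply]
    by_cases hpi : p = i
    · subst hpi
      simp [Pi.mulSingle_eq_same, Pi.mulSingle_eq_of_ne hj.symm, Pi.mulSingle_eq_of_ne (Ne.symm hl.1)]
    · by_cases hpj : p = j
      · subst hpj
        simp [Pi.mulSingle_eq_of_ne hpi, Pi.mulSingle_eq_of_ne (Ne.symm hl.2)]
      · simp [Pi.mulSingle_eq_of_ne hpi, Pi.mulSingle_eq_of_ne hpj]
  rw [e]
  exact cm_mem (mulSingle_mem hj.symm a) (mulSingle_mem (Ne.symm hl.1) b)

theorem cm_diag_mem (hn : 3 ≤ n) (c d : Fin n → Aˣ) : cm c d ∈ D0 n A := by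
  have key : ∀ S : Finset (Fin n),
      (fun p => if p ∈ S then cm (c p) (d p) else 1 : Fin n → Aˣ) ∈ D0 n A := by
    intro S
    induction S using Finset.induction_on with
    | empty =>
      have : (fun p => if p ∈ (∅ : Finset (Fin n)) then cm (c p) (d p) else 1 : Fin n → Aˣ) = 1 := by
        funext p; simp
      rw [this]; exact one_mem _
    | insert j S hj ih =>
      have : (fun p => if p ∈ insert j S then cm (c p) (d p) else 1 : Fin n → Aˣ) =
          Pi.mulSingle j (cm (c j) (d j)) * (fun p => if p ∈ S then cm (c p) (d p) else 1) := by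
        funext p
        simp only [Pi.mul_apply]
        by_cases hp : p = j
        · subst hp
          simp [hj]
        · simp [hp]
      rw [this]
      exact mul_mem (mulSingle_cm_mem hn _ _ _) ih
  have h := key Finset.univ
  have e : (fun p => if p ∈ (Finset.univ : Finset (Fin n)) then cm (c p) (d p) else 1 : Fin n → Aˣ)
      = cm c d := by
    funext p; simp [cm]
  rwa [e] at h

theorem dg_conj (d : Fin n → Aˣ) {x : (Matrix (Fin n) (Fin n) A)ˣ} (hx : x ∈ EU n A) :
    dg n A d * x * (dg n A d)⁻¹ ∈ EU n A := by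
  induction hx using Subgroup.closure_induction with
  | mem x hx =>
    obtain ⟨i, j, hij, r, e⟩ := hx
    rw [mem_EU_iff, Units.val_mul, Units.val_mul, e, conj_tr (Units.mul_inv _)]
    have : U (fun a => (dg n A d : Matrix (Fin n) (Fin n) A) a i)
        (fun b => r * ((((dg n A d)⁻¹ : (Matrix (Fin n) (Fin n) A)ˣ)) : Matrix (Fin n) (Fin n) A) j b)
        = tr i j ((d i : A) * (r * (((d j)⁻¹ : Aˣ) : A))) := by
      rw [← U_single]
      congr 1
      · ext a
        rw [dg_val, Matrix.diagonal_apply]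
        by_cases ha : a = i
        · subst ha; simp
        · simp [ha]
      · ext b
        rw [dg_inv_val, Matrix.diagonal_apply]
        by_cases hb : b = j
        · subst hb; simp
        · simp [hb, Ne.symm hb]
    rw [this]
    exact tr_mem hij _
  | one => simp
  | mul x y _ _ ihx ihy =>
    have : dg n A d * (x * y) * (dg n A d)⁻¹ =
      (dg n A d * x * (dg n A d)⁻¹) * (dg n A d * y * (dg n A d)⁻¹) := by group
    rw [this]; exact mul_mem ihx ihy
  | inv x _ ih =>
    have : dg n A d * x⁻¹ * (dg n A d)⁻¹ = (dg n A d * x * (dg n A d)⁻¹)⁻¹ := by group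
    rw [this]; exact inv_mem ih

/-- commutators of elements of `E · Δ` are elementary -/
theorem cm_mem_of_diag (hn : 3 ≤ n) {e₁ e₂ : (Matrix (Fin n) (Fin n) A)ˣ} (h₁ : e₁ ∈ EU n A)
    (h₂ : e₂ ∈ EU n A) (c d : Fin n → Aˣ) :
    cm (e₁ * dg n A c) (e₂ * dg n A d) ∈ EU n A := by
  have e : cm (e₁ * dg n A c) (e₂ * dg n A d) =
      e₁ * (dg n A c * e₂ * (dg n A c)⁻¹) * dg n A (cm c d) *
        (dg n A d * e₁⁻¹ * (dg n A d)⁻¹) * e₂⁻¹ := by
    have : dg n A (cm c d) = cm (dg n A c) (dg n A d) := by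
      simp only [cm, map_mul, map_inv]
    rw [this]
    unfold cm
    group
  rw [e]
  have h3 : dg n A (cm c d) ∈ EU n A := cm_diag_mem hn c d
  exact mul_mem (mul_mem (mul_mem (mul_mem h₁ (dg_conj c h₂)) h3) (dg_conj d (inv_mem h₁)))
    (inv_mem h₂)

/-- Gauss elimination modulo a left quasi-invertible ideal -/
theorem gauss (π : A →+* B) (hJ : ∀ a, π a = 0 → IsUnit (1 + a))
    (h : Matrix (Fin n) (Fin n) A) (hh : π.mapMatrix h = 1) :
    ∃ e ∈ E n A, ∃ d : Fin n → Aˣ, e * h = Matrix.diagonal (fun i => (d i : A)) := by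
  have key : ∀ S : Finset (Fin n), ∃ e ∈ E n A, π.mapMatrix (e * h) = 1 ∧
      ∀ j ∈ S, ∀ i, i ≠ j → (e * h) i j = 0 := by
    intro S
    induction S using Finset.induction_on with
    | empty => exact ⟨1, one_mem _, by simpa using hh, by simp⟩
    | insert m S hm ih =>
      obtain ⟨e, he, h1, h2⟩ := ih
      obtain ⟨k, hk⟩ : ∃ k, k = e * h := ⟨_, rfl⟩
      rw [← hk] at h1 h2
      have hent : ∀ i j, π (k i j) = (1 : Matrix (Fin n) (Fin n) B) i j := by
        intro i j
        rw [← h1, RingHom.mapMatrix_apply, Matrix.map_apply]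
      have hu : IsUnit (k m m) := by
        have : k m m = 1 + (k m m - 1) := by abel
        rw [this]
        apply hJ
        rw [map_sub, hent, map_one]; simp
      obtain ⟨u, hu⟩ := hu
      obtain ⟨c, hc⟩ : ∃ c : Fin n → A, c = fun i => if i = m then 0 else -(k i m) * ((u⁻¹ : Aˣ) : A) :=
        ⟨_, rfl⟩
      have hcm : c m = 0 := by simp [hc]
      have hU : U c (Pi.single m 1) ∈ E n A := U_row_mem _ _ _ hcm
      have hprod : U c (Pi.single m 1) * k = k + vecMulVec c (fun j => k m j) := by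
        unfold U
        rw [add_mul, one_mul, vecMulVec_mul]
        congr 2
        ext j
        simp
      refine ⟨U c (Pi.single m 1) * e, mul_mem hU he, ?_, ?_⟩
      · rw [mul_assoc, ← hk, map_mul, h1, mul_one]
        unfold U
        rw [map_add, map_one]
        have : π.mapMatrix (vecMulVec c (Pi.single m (1 : A))) = 0 := by
          ext i j
          rw [RingHom.mapMatrix_apply, Matrix.map_apply, vecMulVec_apply, map_mul]
          have : π (c i) = 0 := by
            rw [hc]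
            by_cases hi : i = m
            · simp [hi]
            · simp only [hi, if_false]
              rw [map_mul, map_neg, hent]
              simp [hi]
          rw [this, zero_mul]; rfl
        rw [this, add_zero]
      · intro j hj i hij
        rw [mul_assoc, ← hk, hprod, Matrix.add_apply, vecMulVec_apply]
        rw [Finset.mem_insert] at hj
        by_cases hjm : j = m
        · subst hjm
          rw [hc]
          simp only [hij, if_false]
          rw [← hu, neg_mul, neg_mul, Units.inv_mul_cancel_right, add_neg_cancel]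
        · rw [h2 j (hj.resolve_left hjm) i hij, h2 j (hj.resolve_left hjm) m (Ne.symm hjm),
            mul_zero, add_zero]
  obtain ⟨e, he, h1, h2⟩ := key Finset.univ
  have hent : ∀ i j, π ((e * h) i j) = (1 : Matrix (Fin n) (Fin n) B) i j := by
    intro i j
    rw [← h1, RingHom.mapMatrix_apply, Matrix.map_apply]
  have hu : ∀ i, IsUnit ((e * h) i i) := by
    intro i
    have : (e * h) i i = 1 + ((e * h) i i - 1) := by abel
    rw [this]
    apply hJ
    rw [map_sub, hent, map_one]; simp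
  choose d hd using hu
  refine ⟨e, he, d, ?_⟩
  ext i j
  rw [Matrix.diagonal_apply]
  by_cases hij : i = j
  · subst hij
    simp [hd]
  · rw [h2 j (Finset.mem_univ _) i hij]
    simp [hij]

theorem isUnit_of_left (π : A →+* B) (hJ : ∀ a, π a = 0 → ∃ y, y * (1 + a) = 1) :
    ∀ a, π a = 0 → IsUnit (1 + a) := by
  intro a ha
  obtain ⟨y, hy⟩ := hJ a ha
  have e : y = 1 + (-(y * a)) := by
    rw [mul_add, mul_one] at hy
    rw [← hy]; abel
  obtain ⟨z, hz⟩ := hJ (-(y * a)) (by rw [map_neg, map_mul, ha, mul_zero, neg_zero])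
  rw [← e] at hz
  have e2 : z = 1 + a := by
    calc z = z * (y * (1 + a)) := by rw [hy, mul_one]
      _ = (z * y) * (1 + a) := by rw [mul_assoc]
      _ = 1 + a := by rw [hz, one_mul]
  rw [e2] at hz
  exact ⟨⟨1 + a, y, hz, hy⟩, rfl⟩

/-- **L2.** -/
theorem nor_of_quot (hn : 3 ≤ n) (π : A →+* B) (hπ : Function.Surjective π)
    (hJ : ∀ a, π a = 0 → ∃ y, y * (1 + a) = 1) (hB : Nor n B) : Nor n A := by
  intro g
  have hU := isUnit_of_left π hJ
  have key : ∀ x ∈ EU n A, ∃ e ∈ EU n A, ∃ d : Fin n → Aˣ, g * x * g⁻¹ = e * dg n A d := by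
    intro x hx
    have h1 : Units.map π.mapMatrix.toMonoidHom g * Units.map π.mapMatrix.toMonoidHom x *
        (Units.map π.mapMatrix.toMonoidHom g)⁻¹ ∈ EU n B := by
      apply hB
      rw [mem_EU_iff]
      exact map_mem π (mem_EU_iff.mp hx)
    rw [mem_EU_iff] at h1
    obtain ⟨e, he, h2⟩ := exists_lift hπ h1
    obtain ⟨e', he', h3, h4⟩ := E_inv he
    have h5 : π.mapMatrix (e' * ((g * x * g⁻¹ : (Matrix (Fin n) (Fin n) A)ˣ) :
        Matrix (Fin n) (Fin n) A)) = 1 := by
      rw [map_mul]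
      have : π.mapMatrix ((g * x * g⁻¹ : (Matrix (Fin n) (Fin n) A)ˣ) : Matrix (Fin n) (Fin n) A)
          = π.mapMatrix e := by
        rw [h2, ← map_inv, ← map_mul, ← map_mul]
        rfl
      rw [this, ← map_mul, h4, map_one]
    obtain ⟨e'', he'', d, h6⟩ := gauss π hU _ h5
    obtain ⟨f, hf, h7, h8⟩ := E_inv he''
    have hv : ∀ y, y ∈ E n A → ∃ u ∈ EU n A, (u : Matrix (Fin n) (Fin n) A) = y := by
      intro y hy
      obtain ⟨z, hz, hyz, hzy⟩ := E_inv hy
      exact ⟨⟨y, z, hyz, hzy⟩, mem_EU_iff.mpr hy, rfl⟩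
    obtain ⟨u, hu, e1⟩ := hv (e * f) (mul_mem he hf)
    refine ⟨u, hu, d, ?_⟩
    ext1
    rw [Units.val_mul u, dg_val, ← h6, e1]
    calc ((g * x * g⁻¹ : (Matrix (Fin n) (Fin n) A)ˣ) : Matrix (Fin n) (Fin n) A)
        = (e * (f * e'') * e') * ((g * x * g⁻¹ : (Matrix (Fin n) (Fin n) A)ˣ) :
            Matrix (Fin n) (Fin n) A) := by rw [h8, mul_one, h3, one_mul]
      _ = _ := by simp only [mul_assoc]
  apply conj_mem_of_comm hn
  intro x₁ hx₁ x₂ hx₂
  obtain ⟨e₁, he₁, c, h1⟩ := key x₁ hx₁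
  obtain ⟨e₂, he₂, d, h2⟩ := key x₂ hx₂
  rw [h1, h2]
  exact cm_mem_of_diag hn he₁ he₂ c d

end Pool.Agent.V5helper35.PI
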