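import Pool.Agent.V5helper35.PI.Jac

set_option autoImplicit false

/-! # The main reduction: normality over `R` from normality over `R/𝔞R` -/

namespace Pool.Agent.V5helper35.PI

open Matrix

variable {n : ℕ} {R C : Type*} [Ring R] [CommRing C] [Algebra C R]

/-- the two-sided ideal `𝔫 R` -/
def IR (R : Type*) [Ring R] {C : Type*} [CommRing C] [Algebra C R] (𝔫 : Ideal C) : Ideal R where
  carrier := (𝔫 • (⊤ : Submodule C R) : Submodule C R)
  add_mem' := fun ha hb => add_mem ha hb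
  zero_mem' := zero_mem _
  smul_mem' := by
    intro r x hx
    have hx' : x ∈ (𝔫 • (⊤ : Submodule C R) : Submodule C R) := hx
    change r • x ∈ (𝔫 • (⊤ : Submodule C R) : Submodule C R)
    refine Submodule.smul_induction_on hx' ?_ ?_
    · intro c hc t _
      have : r • c • t = c • (r * t) := by rw [smul_eq_mul, mul_smul_comm]
      rw [this]
      exact Submodule.smul_mem_smul hc trivial
    · intro x y hx hy
      rw [smul_add]
      exact add_mem hx hy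

theorem mem_IR {𝔫 : Ideal C} {x : R} :
    x ∈ IR R 𝔫 ↔ x ∈ (𝔫 • (⊤ : Submodule C R) : Submodule C R) := Iff.rfl

instance (𝔫 : Ideal C) : (IR R 𝔫).IsTwoSided where
  mul_mem_of_left := by
    intro x r hx
    rw [mem_IR] at hx ⊢
    refine Submodule.smul_induction_on hx ?_ ?_
    · intro c hc t _
      rw [smul_mul_assoc]
      exact Submodule.smul_mem_smul hc trivial
    · intro x y hx hy
      rw [add_mul]
      exact add_mem hx hy

theorem smul_mem_IR {𝔫 : Ideal C} {c : C} (hc : c ∈ 𝔫) (r : R) : c • r ∈ IR R 𝔫 := by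
  rw [mem_IR]
  exact Submodule.smul_mem_smul hc Submodule.mem_top

theorem algebraMap_mem_IR {𝔫 : Ideal C} {c : C} (hc : c ∈ 𝔫) : algebraMap C R c ∈ IR R 𝔫 := by
  rw [Algebra.algebraMap_eq_smul_one]
  exact smul_mem_IR hc 1

theorem IR_mono {𝔫 𝔫' : Ideal C} (h : 𝔫 ≤ 𝔫') : IR R 𝔫 ≤ IR R 𝔫' := by
  intro x hx
  rw [mem_IR] at hx ⊢
  exact Submodule.smul_mono_left h hx

/-- the hypotheses of the main lemma -/
structure Hyp (R : Type*) [Ring R] {C : Type*} [CommRing C] [Algebra C R] (𝔞 : Ideal C) :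
    Prop where
  int1 : ∀ a ∈ IR R 𝔞, ∃ y : R, ∃ c ∈ 𝔞, y * (1 + a) = algebraMap C R (1 + c)
  sr : ∀ m : Ideal C, m.IsMaximal → ¬ 𝔞 ≤ m → ∀ x y z t : R, z * x + t * y - 1 ∈ IR R m →
    ∃ c u : R, u * (x + c * y) - 1 ∈ IR R m
  int2 : ∀ m : Ideal C, m.IsMaximal → ¬ 𝔞 ≤ m → ∀ b ∈ IR R m, ∃ y : R, ∃ s : C, s ∉ m ∧
    y * (1 + b) = algebraMap C R s

theorem srk {𝔞 : Ideal C} (H : Hyp R 𝔞) {m : Ideal C} (hm : m.IsMaximal) (ham : ¬ 𝔞 ≤ m)
    (v z : Fin n → R) (k : Fin n) (d : C) (hd : d - 1 ∈ m) :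
    ∃ c y u : R, ∃ s : C, s ∉ m ∧ y * (u * (v k + d • (c * (1 - z k * v k)))) =
      algebraMap C R s := by
  obtain ⟨c, u, hcu⟩ := H.sr m hm ham (v k) (1 - z k * v k) (z k) 1 (by
    have : z k * v k + 1 * (1 - z k * v k) - 1 = 0 := by noncomm_ring
    rw [this]; exact zero_mem _)
  have h1 : u * (v k + d • (c * (1 - z k * v k))) - 1 ∈ IR R m := by
    have e : u * (v k + d • (c * (1 - z k * v k))) - 1 =
        (u * (v k + c * (1 - z k * v k)) - 1) + (d - 1) • (u * (c * (1 - z k * v k))) := by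
      rw [mul_add, mul_smul_comm, sub_smul, one_smul, mul_add]
      abel
    rw [e]
    exact add_mem hcu (smul_mem_IR hd _)
  obtain ⟨y, s, hs, hy⟩ := H.int2 m hm ham _ h1
  refine ⟨c, y, u, s, hs, ?_⟩
  rw [← hy]
  congr 1
  abel

theorem U_single_mulVec (k : Fin n) (ρ v : Fin n → R) :
    (U (Pi.single k 1) ρ *ᵥ v) k = v k + ρ ⬝ᵥ v := by
  unfold U
  rw [add_mulVec, one_mulVec, Pi.add_apply, vecMulVec_mulVec]
  simp

theorem step1 (hn : 3 ≤ n) {𝔞 : Ideal C} (H : Hyp R 𝔞) (v z : Fin n → R) (hz : z ⬝ᵥ v = 1)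
    {m : Ideal C} (hm : m.IsMaximal) (ham : ¬ 𝔞 ≤ m) : ¬ nv C v ≤ m := by
  intro hle
  obtain ⟨k⟩ : Nonempty (Fin n) := ⟨⟨0, by omega⟩⟩
  obtain ⟨c, y, u, s, hs, hy⟩ := srk H hm ham v z k 1 (by simp)
  obtain ⟨ρ, hρ⟩ : ∃ ρ : Fin n → R, ρ = c • z - Pi.single k (c * z k) := ⟨_, rfl⟩
  have hρk : ρ k = 0 := by simp [hρ]
  have hε : U (Pi.single k 1) ρ ∈ E n R := U_col_mem _ _ _ hρk
  have hρv : ρ ⬝ᵥ v = c * (1 - z k * v k) := by
    rw [hρ, sub_dotProduct, smul_dotProduct, hz, single_dotProduct, smul_eq_mul, mul_sub, mul_assoc]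
  have h2 : (y * u) * (U (Pi.single k 1) ρ *ᵥ v) k = algebraMap C R s := by
    rw [U_single_mulVec, hρv, ← hy, one_smul, mul_assoc]
  exact hs (hle (nv_conj_le hε (mem_nv_of_left hn h2)))

/-! ## the double -/

/-- the double of `R` along a two-sided ideal -/
def Dbl (C : Type*) {R : Type*} [Ring R] [CommRing C] [Algebra C R] (J : Ideal R) [J.IsTwoSided] :
    Subalgebra C (R × R) where
  carrier := {p | p.1 - p.2 ∈ J}
  mul_mem' := by
    intro a b ha hb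
    have ha' : a.1 - a.2 ∈ J := ha
    have hb' : b.1 - b.2 ∈ J := hb
    change a.1 * b.1 - a.2 * b.2 ∈ J
    have : a.1 * b.1 - a.2 * b.2 = a.1 * (b.1 - b.2) + (a.1 - a.2) * b.2 := by noncomm_ring
    rw [this]
    exact add_mem (J.mul_mem_left _ hb') (J.mul_mem_right _ ha')
  add_mem' := by
    intro a b ha hb
    have ha' : a.1 - a.2 ∈ J := ha
    have hb' : b.1 - b.2 ∈ J := hb
    change a.1 + b.1 - (a.2 + b.2) ∈ J
    have : a.1 + b.1 - (a.2 + b.2) = (a.1 - a.2) + (b.1 - b.2) := by abel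
    rw [this]
    exact add_mem ha' hb'
  algebraMap_mem' := by
    intro c
    change algebraMap C R c - algebraMap C R c ∈ J
    rw [sub_self]; exact zero_mem _

section dbl

variable (C) (J : Ideal R) [J.IsTwoSided]

/-- first projection -/
def p₁ : Dbl C J →+* R := (RingHom.fst R R).comp (Dbl C J).val.toRingHom
/-- second projection -/
def p₂ : Dbl C J →+* R := (RingHom.snd R R).comp (Dbl C J).val.toRingHom

/-- diagonal -/
def dl : R →+* Dbl C J where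
  toFun r := ⟨(r, r), by change r - r ∈ J; rw [sub_self]; exact zero_mem _⟩
  map_one' := rfl
  map_mul' _ _ := rfl
  map_zero' := rfl
  map_add' _ _ := rfl

/-- the relative elementary subgroup -/
def FJ (n : ℕ) (J : Ideal R) : Subgroup (Matrix (Fin n) (Fin n) R)ˣ :=
  Subgroup.closure {u | ∃ x ∈ EU n R, ∃ i j, ∃ h : i ≠ j, ∃ a ∈ J, u = x * utr i j h a * x⁻¹}

omit [J.IsTwoSided] in
theorem FJ_le : FJ n J ≤ EU n R := by
  unfold FJ
  rw [Subgroup.closure_le]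
  rintro u ⟨x, hx, i, j, h, a, _, rfl⟩
  exact mul_mem (mul_mem hx (utr_mem _ _ _ _)) (inv_mem hx)

theorem E_dbl {X : Matrix (Fin n) (Fin n) (Dbl C J)} (hX : X ∈ E n (Dbl C J)) :
    ∃ f ∈ FJ n J, (p₁ C J).mapMatrix X = (f : Matrix (Fin n) (Fin n) R) * (p₂ C J).mapMatrix X := by
  induction hX using Submonoid.closure_induction_right with
  | one => exact ⟨1, one_mem _, by simp⟩
  | mul_right X hX Y hY ih =>
    obtain ⟨f, hf, h1⟩ := ih
    obtain ⟨i, j, hij, r, rfl⟩ := hY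
    have h2 : (p₂ C J).mapMatrix X ∈ E n R := map_mem _ hX
    obtain ⟨b', hb', h3, h4⟩ := E_inv h2
    obtain ⟨b, hb⟩ : ∃ b : (Matrix (Fin n) (Fin n) R)ˣ, (b : Matrix (Fin n) (Fin n) R) =
      (p₂ C J).mapMatrix X := ⟨⟨_, b', h3, h4⟩, rfl⟩
    have hbE : b ∈ EU n R := by rw [mem_EU_iff, hb]; exact h2
    have ha : p₁ C J r - p₂ C J r ∈ J := r.2
    refine ⟨f * (b * utr i j hij (p₁ C J r - p₂ C J r) * b⁻¹), mul_mem hf
      (Subgroup.subset_closure ⟨b, hbE, i, j, hij, _, ha, rfl⟩), ?_⟩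
    rw [map_mul, map_mul, h1, map_tr, map_tr, ← hb]
    simp only [Units.val_mul]
    have e : tr i j (p₁ C J r) = (utr i j hij (p₁ C J r - p₂ C J r) : Matrix (Fin n) (Fin n) R) *
        tr i j (p₂ C J r) := by
      change _ = tr i j (p₁ C J r - p₂ C J r) * _
      rw [tr_mul_tr hij, sub_add_cancel]
    rw [e]
    simp only [mul_assoc, Units.inv_mul_cancel_left]

end dbl

theorem step3 (hn : 3 ≤ n) {𝔞 : Ideal C} (H : Hyp R 𝔞) {𝔫 : Ideal C} (h𝔫 : 𝔫 ≤ 𝔞)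
    (hP : ∀ m : Ideal C, m.IsMaximal → ¬ 𝔞 ≤ m → ¬ 𝔫 ≤ m)
    (h : (Matrix (Fin n) (Fin n) R)ˣ)
    (hh : ∀ i j, (h : Matrix (Fin n) (Fin n) R) i j - (1 : Matrix (Fin n) (Fin n) R) i j ∈ IR R 𝔫)
    (hh' : ∀ i j, ((h⁻¹ : (Matrix (Fin n) (Fin n) R)ˣ) : Matrix (Fin n) (Fin n) R) i j -
      (1 : Matrix (Fin n) (Fin n) R) i j ∈ IR R 𝔫) :
    ∀ x ∈ EU n R, cm h x ∈ FJ n (IR R 𝔫) := by
  obtain ⟨K, hK⟩ : ∃ K : Matrix (Fin n) (Fin n) (Dbl C (IR R 𝔫)), K = Matrix.of fun i j =>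
    ⟨((h : Matrix (Fin n) (Fin n) R) i j, (1 : Matrix (Fin n) (Fin n) R) i j), hh i j⟩ := ⟨_, rfl⟩
  obtain ⟨K', hK'⟩ : ∃ K' : Matrix (Fin n) (Fin n) (Dbl C (IR R 𝔫)), K' = Matrix.of fun i j =>
    ⟨(((h⁻¹ : (Matrix (Fin n) (Fin n) R)ˣ) : Matrix (Fin n) (Fin n) R) i j,
      (1 : Matrix (Fin n) (Fin n) R) i j), hh' i j⟩ := ⟨_, rfl⟩
  have inj : ∀ X Y : Matrix (Fin n) (Fin n) (Dbl C (IR R 𝔫)),
      (p₁ C (IR R 𝔫)).mapMatrix X = (p₁ C (IR R 𝔫)).mapMatrix Y →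
      (p₂ C (IR R 𝔫)).mapMatrix X = (p₂ C (IR R 𝔫)).mapMatrix Y → X = Y := by
    intro X Y h1 h2
    ext i j
    · exact congrFun (congrFun h1 i) j
    · exact congrFun (congrFun h2 i) j
  have k1 : (p₁ C (IR R 𝔫)).mapMatrix K = h := by ext i j; rw [hK]; rfl
  have k2 : (p₂ C (IR R 𝔫)).mapMatrix K = 1 := by ext i j; rw [hK]; rfl
  have k1' : (p₁ C (IR R 𝔫)).mapMatrix K' = ((h⁻¹ : (Matrix (Fin n) (Fin n) R)ˣ) :
      Matrix (Fin n) (Fin n) R) := by ext i j; rw [hK']; rfl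
  have k2' : (p₂ C (IR R 𝔫)).mapMatrix K' = 1 := by ext i j; rw [hK']; rfl
  have hKK' : K * K' = 1 := by
    apply inj
    · rw [map_mul, k1, k1', Units.mul_inv, map_one]
    · rw [map_mul, k2, k2', mul_one, map_one]
  have hK'K : K' * K = 1 := by
    apply inj
    · rw [map_mul, k1, k1', Units.inv_mul, map_one]
    · rw [map_mul, k2, k2', mul_one, map_one]
  -- the columns
  have hcol : ∀ i, nv C (fun a => K a i) = ⊤ := by
    intro i
    apply nv_eq_top hn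
    intro m hm
    have hKi1 : ∀ a, p₁ C (IR R 𝔫) (K a i) = (h : Matrix (Fin n) (Fin n) R) a i := by
      intro a; rw [hK]; rfl
    have hKi2 : ∀ a, p₂ C (IR R 𝔫) (K a i) = (1 : Matrix (Fin n) (Fin n) R) a i := by
      intro a; rw [hK]; rfl
    have ext' : ∀ x y : Dbl C (IR R 𝔫), p₁ C (IR R 𝔫) x = p₁ C (IR R 𝔫) y →
        p₂ C (IR R 𝔫) x = p₂ C (IR R 𝔫) y → x = y := by
      intro x y h1 h2
      exact Subtype.ext (Prod.ext h1 h2)
    by_cases hm𝔫 : 𝔫 ≤ m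
    · -- `𝔞 ≤ m`
      have hm𝔞 : 𝔞 ≤ m := by
        by_contra hcon
        exact hP m hm hcon hm𝔫
      obtain ⟨y, c, hc, hy⟩ := H.int1 _ (IR_mono h𝔫 (hh i i))
      have hy' : y * (h : Matrix (Fin n) (Fin n) R) i i = algebraMap C R (1 + c) := by
        rw [← hy, Matrix.one_apply_eq]
        congr 1; abel
      have hsm : 1 + c ∉ m := by
        intro hcon
        apply hm.ne_top
        rw [Ideal.eq_top_iff_one]
        have := m.sub_mem hcon (hm𝔞 hc)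
        simpa using this
      have hyd : y - algebraMap C R (1 + c) ∈ IR R 𝔫 := by
        have : y - algebraMap C R (1 + c) = (-y) * ((h : Matrix (Fin n) (Fin n) R) i i -
            (1 : Matrix (Fin n) (Fin n) R) i i) := by
          rw [← hy', Matrix.one_apply_eq]
          noncomm_ring
        rw [this]
        exact Ideal.mul_mem_left _ _ (hh i i)
      refine ⟨1 + c, hsm, 1, one_mem _, i, ⟨(y, algebraMap C R (1 + c)), hyd⟩, ?_⟩
      rw [one_mulVec]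
      apply ext'
      · rw [map_mul, hKi1]
        exact hy'
      · rw [map_mul, hKi2, Matrix.one_apply_eq, mul_one]
        rfl
    · obtain ⟨c₀, hc₀, hc₀m⟩ := Set.not_subset.mp hm𝔫
      have ham : ¬ 𝔞 ≤ m := fun hcon => hm𝔫 (h𝔫.trans hcon)
      obtain ⟨c', hc'⟩ : ∃ c' : C, c₀ * c' - 1 ∈ m := by
        obtain ⟨c', hc'⟩ := hm.exists_inv hc₀m
        obtain ⟨x, hx, e⟩ := hc'
        refine ⟨c', ?_⟩
        have : c₀ * c' - 1 = -x := by rw [← e]; ring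
        rw [this]; exact m.neg_mem hx
      obtain ⟨v, hv⟩ : ∃ v : Fin n → R, v = fun a => (h : Matrix (Fin n) (Fin n) R) a i := ⟨_, rfl⟩
      obtain ⟨z, hz⟩ : ∃ z : Fin n → R, z = fun a =>
        ((h⁻¹ : (Matrix (Fin n) (Fin n) R)ˣ) : Matrix (Fin n) (Fin n) R) i a := ⟨_, rfl⟩
      have hzv : z ⬝ᵥ v = 1 := by
        have : (((h⁻¹ : (Matrix (Fin n) (Fin n) R)ˣ) : Matrix (Fin n) (Fin n) R) * h) i i = 1 := by
          rw [Units.inv_mul, Matrix.one_apply_eq]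
        rw [hz, hv]
        exact this
      obtain ⟨c, y, u, s, hs, hy⟩ := srk H hm ham v z i (c₀ * c') hc'
      obtain ⟨ρ₁, hρ₁⟩ : ∃ ρ₁ : Fin n → R, ρ₁ = fun j => (c₀ * c') •
        ((c • z - Pi.single i (c * z i) : Fin n → R) j) := ⟨_, rfl⟩
      have hρi : ρ₁ i = 0 := by simp [hρ₁]
      have hρJ : ∀ j, ρ₁ j ∈ IR R 𝔫 := by
        intro j
        rw [hρ₁]
        exact smul_mem_IR (𝔫.mul_mem_right _ hc₀) _
      have hρv : ρ₁ ⬝ᵥ v = (c₀ * c') • (c * (1 - z i * v i)) := by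
        have : ρ₁ = (c₀ * c') • (c • z - Pi.single i (c * z i)) := by rw [hρ₁]; rfl
        rw [this, smul_dotProduct, sub_dotProduct, smul_dotProduct, hzv, single_dotProduct,
          smul_eq_mul, mul_sub, mul_assoc]
      obtain ⟨ρ, hρ⟩ : ∃ ρ : Fin n → Dbl C (IR R 𝔫), ρ = fun j =>
        ⟨(ρ₁ j, 0), by change ρ₁ j - 0 ∈ IR R 𝔫; rw [sub_zero]; exact hρJ j⟩ := ⟨_, rfl⟩
      have hε : U (Pi.single i 1) ρ ∈ E n (Dbl C (IR R 𝔫)) := by
        apply U_col_mem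
        rw [hρ]
        apply ext'
        · exact hρi
        · rfl
      have hsm : c₀ * s ∉ m := by
        intro hcon
        rcases hm.isPrime.mem_or_mem hcon with h1 | h1
        · exact hc₀m h1
        · exact hs h1
      have hYm : c₀ • (y * u) - c₀ • algebraMap C R s ∈ IR R 𝔫 := by
        rw [← smul_sub]; exact smul_mem_IR hc₀ _
      refine ⟨c₀ * s, hsm, _, hε, i, ⟨(c₀ • (y * u), c₀ • algebraMap C R s), hYm⟩, ?_⟩
      rw [U_single_mulVec]
      apply ext'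
      · rw [map_mul, map_add, hKi1]
        have e1 : p₁ C (IR R 𝔫) (ρ ⬝ᵥ fun a => K a i) = ρ₁ ⬝ᵥ v := by
          unfold dotProduct
          rw [map_sum]
          refine Finset.sum_congr rfl ?_
          intro j _
          rw [map_mul, hKi1, hρ, hv]; rfl
        rw [e1, hρv]
        change c₀ • (y * u) * _ = algebraMap C R (c₀ * s)
        have e2 : (h : Matrix (Fin n) (Fin n) R) i i = v i := by rw [hv]
        rw [e2, smul_mul_assoc, mul_assoc, hy, map_mul, ← Algebra.smul_def]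
      · rw [map_mul, map_add, hKi2, Matrix.one_apply_eq]
        have e1 : p₂ C (IR R 𝔫) (ρ ⬝ᵥ fun a => K a i) = 0 := by
          unfold dotProduct
          rw [map_sum]
          apply Finset.sum_eq_zero
          intro j _
          rw [map_mul]
          have : p₂ C (IR R 𝔫) (ρ j) = 0 := by rw [hρ]; rfl
          rw [this, zero_mul]
        rw [e1, add_zero, mul_one]
        change c₀ • algebraMap C R s = algebraMap C R (c₀ * s)
        rw [map_mul, ← Algebra.smul_def]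
  -- conjugation by `K` preserves `E n D`
  have hconj : ∀ X ∈ E n (Dbl C (IR R 𝔫)), K * X * K' ∈ E n (Dbl C (IR R 𝔫)) := by
    intro X hX
    induction hX using Submonoid.closure_induction with
    | mem x hx =>
      obtain ⟨i, j, hij, r, rfl⟩ := hx
      rw [conj_tr hKK']
      have h1 : (1 : C) ∈ nv C (fun a => K a i) := by rw [hcol]; trivial
      have h2 := h1 (fun b => r * K' j b) (by
        have : (fun b => r * K' j b) = r • (fun b => K' j b) := rfl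
        rw [this, smul_dotProduct]
        have e : (fun b => K' j b) ⬝ᵥ (fun a => K a i) = (K' * K) j i := rfl
        rw [e, hK'K, Matrix.one_apply_ne hij.symm, smul_zero])
      rwa [one_smul] at h2
    | one => rw [mul_one, hKK']; exact one_mem _
    | mul x y _ _ ihx ihy =>
      have : K * (x * y) * K' = (K * x * K') * (K * y * K') := by
        calc K * (x * y) * K' = K * x * 1 * y * K' := by simp only [mul_one, mul_assoc]
          _ = K * x * (K' * K) * y * K' := by rw [hK'K]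
          _ = _ := by simp only [mul_assoc]
      rw [this]; exact mul_mem ihx ihy
  intro x hx
  have h1 : (dl C (IR R 𝔫)).mapMatrix (x : Matrix (Fin n) (Fin n) R) ∈ E n (Dbl C (IR R 𝔫)) :=
    map_mem _ (mem_EU_iff.mp hx)
  obtain ⟨f, hf, e⟩ := E_dbl C (IR R 𝔫) (hconj _ h1)
  have d1 : (p₁ C (IR R 𝔫)).mapMatrix ((dl C (IR R 𝔫)).mapMatrix (x : Matrix (Fin n) (Fin n) R)) =
    x := by ext i j; rfl
  have d2 : (p₂ C (IR R 𝔫)).mapMatrix ((dl C (IR R 𝔫)).mapMatrix (x : Matrix (Fin n) (Fin n) R)) =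
    x := by ext i j; rfl
  rw [map_mul, map_mul, map_mul, map_mul, k1, k1', k2, k2', d1, d2, one_mul, mul_one] at e
  have e' : cm h x = f := by
    unfold cm
    rw [mul_inv_eq_iff_eq_mul]
    ext1
    simpa using e
  rw [e']; exact hf

theorem step2 (hn : 3 ≤ n) {𝔞 : Ideal C} (H : Hyp R 𝔞) {𝔫 : Ideal C} (h𝔫 : 𝔫 ≤ 𝔞)
    (hP : ∀ m : Ideal C, m.IsMaximal → ¬ 𝔞 ≤ m → ¬ 𝔫 ≤ m) (hN : Nor n (R ⧸ IR R 𝔞)) :
    Nor n (R ⧸ IR R 𝔫) := by
  refine nor_of_quot hn (Ideal.Quotient.factor (IR_mono h𝔫)) ?_ ?_ hN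
  · exact Ideal.Quotient.factor_surjective _
  · intro a ha
    obtain ⟨a₀, rfl⟩ := Ideal.Quotient.mk_surjective a
    rw [Ideal.Quotient.factor_mk, Ideal.Quotient.eq_zero_iff_mem] at ha
    obtain ⟨y, c, hc, hy⟩ := H.int1 a₀ ha
    have htop : Ideal.span {1 + c} ⊔ 𝔫 = ⊤ := by
      by_contra hne
      obtain ⟨m, hm, hle⟩ := Ideal.exists_le_maximal _ hne
      have h1 : 1 + c ∈ m := hle (Ideal.mem_sup_left (Ideal.subset_span rfl))
      have h2 : 𝔫 ≤ m := le_sup_right.trans hle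
      have h3 : 𝔞 ≤ m := by
        by_contra hcon
        exact hP m hm hcon h2
      apply hm.ne_top
      rw [Ideal.eq_top_iff_one]
      have := m.sub_mem h1 (h3 hc)
      simpa using this
    have h1 : (1 : C) ∈ Ideal.span {1 + c} ⊔ 𝔫 := by rw [htop]; trivial
    obtain ⟨p, hp, q, hq, hpq⟩ := Submodule.mem_sup.mp h1
    obtain ⟨c', rfl⟩ := Ideal.mem_span_singleton'.mp hp
    refine ⟨Ideal.Quotient.mk _ (c' • y), ?_⟩
    rw [← map_one (Ideal.Quotient.mk (IR R 𝔫)), ← map_add, ← map_mul, Ideal.Quotient.eq,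
      smul_mul_assoc, hy, Algebra.smul_def, ← map_mul]
    have : algebraMap C R (c' * (1 + c)) - 1 = algebraMap C R (-q) := by
      rw [← map_one (algebraMap C R), ← map_sub]
      congr 1
      linear_combination hpq
    rw [this]
    exact algebraMap_mem_IR (𝔫.neg_mem hq)

/-- **Main Lemma.** -/
theorem main_lemma (hn : 3 ≤ n) {𝔞 : Ideal C} (H : Hyp R 𝔞) (hN : Nor n (R ⧸ IR R 𝔞)) :
    Nor n R := by
  intro g
  obtain ⟨𝔫, h𝔫⟩ : ∃ 𝔫 : Ideal C, 𝔫 = (Finset.univ.inf fun i : Fin n => nv C (fun a =>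
    (g : Matrix (Fin n) (Fin n) R) a i)) ⊓ 𝔞 := ⟨_, rfl⟩
  have hle : 𝔫 ≤ 𝔞 := by rw [h𝔫]; exact inf_le_right
  have hnv : ∀ i, 𝔫 ≤ nv C (fun a => (g : Matrix (Fin n) (Fin n) R) a i) := by
    intro i
    rw [h𝔫]
    exact inf_le_left.trans (Finset.inf_le (Finset.mem_univ i))
  have hP : ∀ m : Ideal C, m.IsMaximal → ¬ 𝔞 ≤ m → ¬ 𝔫 ≤ m := by
    intro m hm ham hcon
    rw [h𝔫, hm.isPrime.inf_le] at hcon
    rcases hcon with hcon | hcon
    · rw [hm.isPrime.inf_le'] at hcon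
      obtain ⟨i, _, hi⟩ := hcon
      refine step1 hn H _ (fun a => ((g⁻¹ : (Matrix (Fin n) (Fin n) R)ˣ) :
        Matrix (Fin n) (Fin n) R) i a) ?_ hm ham hi
      have : (((g⁻¹ : (Matrix (Fin n) (Fin n) R)ˣ) : Matrix (Fin n) (Fin n) R) * g) i i = 1 := by
        rw [Units.inv_mul, Matrix.one_apply_eq]
      exact this
    · exact ham hcon
  have hNJ := step2 hn H hle hP hN
  -- small elements
  have hsmall : ∀ i j (hij : i ≠ j), ∀ a ∈ IR R 𝔫, g * utr i j hij a * g⁻¹ ∈ EU n R := by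
    intro i j hij a ha
    rw [mem_IR] at ha
    refine Submodule.smul_induction_on ha ?_ ?_
    · intro c hc r _
      rw [mem_EU_iff, Units.val_mul, Units.val_mul]
      change (g : Matrix (Fin n) (Fin n) R) * tr i j (c • r) * _ ∈ E n R
      rw [conj_tr (Units.mul_inv g)]
      have h1 := hnv i hc (fun b => r * ((g⁻¹ : (Matrix (Fin n) (Fin n) R)ˣ) :
        Matrix (Fin n) (Fin n) R) j b) (by
          have : (fun b => r * ((g⁻¹ : (Matrix (Fin n) (Fin n) R)ˣ) :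
            Matrix (Fin n) (Fin n) R) j b) = r • (fun b => ((g⁻¹ : (Matrix (Fin n) (Fin n) R)ˣ) :
            Matrix (Fin n) (Fin n) R) j b) := rfl
          rw [this, smul_dotProduct]
          have e : (fun b => ((g⁻¹ : (Matrix (Fin n) (Fin n) R)ˣ) :
            Matrix (Fin n) (Fin n) R) j b) ⬝ᵥ (fun a => (g : Matrix (Fin n) (Fin n) R) a i) =
            (((g⁻¹ : (Matrix (Fin n) (Fin n) R)ˣ) : Matrix (Fin n) (Fin n) R) * g) j i := rfl
          rw [e, Units.inv_mul, Matrix.one_apply_ne hij.symm, smul_zero])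
      have e2 : (fun b => c • r * ((g⁻¹ : (Matrix (Fin n) (Fin n) R)ˣ) :
        Matrix (Fin n) (Fin n) R) j b) = c • (fun b => r * ((g⁻¹ : (Matrix (Fin n) (Fin n) R)ˣ) :
        Matrix (Fin n) (Fin n) R) j b) := by
        ext b
        rw [Pi.smul_apply, smul_mul_assoc]
      rw [e2]
      exact h1
    · intro x y hx hy
      have e : utr i j hij (x + y) = utr i j hij x * utr i j hij y := by
        ext1
        rw [Units.val_mul]
        exact (tr_mul_tr hij x y).symm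
      have : g * utr i j hij (x + y) * g⁻¹ = (g * utr i j hij x * g⁻¹) *
        (g * utr i j hij y * g⁻¹) := by rw [e]; group
      rw [this]
      exact mul_mem hx hy
  -- the congruence subgroup
  obtain ⟨φ, hφ⟩ : ∃ φ : (Matrix (Fin n) (Fin n) R)ˣ →* (Matrix (Fin n) (Fin n) (R ⧸ IR R 𝔫))ˣ,
    φ = Units.map (Ideal.Quotient.mk (IR R 𝔫)).mapMatrix.toMonoidHom := ⟨_, rfl⟩
  have hent : ∀ h : (Matrix (Fin n) (Fin n) R)ˣ, φ h = 1 → ∀ i j,
      (h : Matrix (Fin n) (Fin n) R) i j - (1 : Matrix (Fin n) (Fin n) R) i j ∈ IR R 𝔫 := by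
    intro h hh i j
    rw [← Ideal.Quotient.eq]
    have h1 : ((φ h : (Matrix (Fin n) (Fin n) (R ⧸ IR R 𝔫))ˣ) :
      Matrix (Fin n) (Fin n) (R ⧸ IR R 𝔫)) i j = (1 : Matrix (Fin n) (Fin n) (R ⧸ IR R 𝔫)) i j := by
      rw [hh]; rfl
    rw [hφ] at h1
    have h2 : Ideal.Quotient.mk (IR R 𝔫) ((1 : Matrix (Fin n) (Fin n) R) i j) =
      (1 : Matrix (Fin n) (Fin n) (R ⧸ IR R 𝔫)) i j := by
      rw [Matrix.one_apply, Matrix.one_apply]
      split_ifs <;> simp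
    rw [h2]
    exact h1
  have hst3 : ∀ h : (Matrix (Fin n) (Fin n) R)ˣ, φ h = 1 → ∀ x ∈ EU n R,
      cm h x ∈ FJ n (IR R 𝔫) := by
    intro h hh
    exact step3 hn H hle hP h (hent h hh) (hent h⁻¹ (by rw [map_inv, hh, inv_one]))
  have hnormE : ∀ h : (Matrix (Fin n) (Fin n) R)ˣ, φ h = 1 → ∀ x ∈ EU n R,
      h * x * h⁻¹ ∈ EU n R := by
    intro h hh x hx
    have : h * x * h⁻¹ = cm h x * x := by unfold cm; group
    rw [this]
    exact mul_mem (FJ_le _ (hst3 h hh x hx)) hx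
  have key : ∀ x ∈ EU n R, ∃ e ∈ EU n R, ∃ h : (Matrix (Fin n) (Fin n) R)ˣ, φ h = 1 ∧
      g * x * g⁻¹ = e * h := by
    intro x hx
    have h1 : φ g * φ x * (φ g)⁻¹ ∈ EU n (R ⧸ IR R 𝔫) := by
      apply hNJ
      rw [mem_EU_iff, hφ]
      exact map_mem _ (mem_EU_iff.mp hx)
    rw [mem_EU_iff] at h1
    obtain ⟨e, he, h2⟩ := exists_lift Ideal.Quotient.mk_surjective h1
    obtain ⟨e', he', h3, h4⟩ := E_inv he
    obtain ⟨ε, hε⟩ : ∃ ε : (Matrix (Fin n) (Fin n) R)ˣ, (ε : Matrix (Fin n) (Fin n) R) = e :=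
      ⟨⟨e, e', h3, h4⟩, rfl⟩
    refine ⟨ε, by rw [mem_EU_iff, hε]; exact he, ε⁻¹ * (g * x * g⁻¹), ?_, by group⟩
    have h5 : φ ε = φ g * φ x * (φ g)⁻¹ := by
      ext1
      rw [← h2, hφ, ← hε]
      rfl
    rw [map_mul, map_inv, h5, map_mul, map_mul, map_inv]
    group
  -- `g x g⁻¹` normalises `E`
  have hnorm : ∀ x ∈ EU n R, ∀ y ∈ EU n R, (g * x * g⁻¹) * y * (g * x * g⁻¹)⁻¹ ∈ EU n R := by
    intro x hx y hy
    obtain ⟨e, he, h, hh, e1⟩ := key x hx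
    rw [e1]
    have : e * h * y * (e * h)⁻¹ = e * (h * y * h⁻¹) * e⁻¹ := by group
    rw [this]
    exact mul_mem (mul_mem he (hnormE h hh y hy)) (inv_mem he)
  have hF : ∀ f ∈ FJ n (IR R 𝔫), g * f * g⁻¹ ∈ EU n R := by
    intro f hf
    induction hf using Subgroup.closure_induction with
    | mem u hu =>
      obtain ⟨x, hx, i, j, hij, a, ha, rfl⟩ := hu
      have : g * (x * utr i j hij a * x⁻¹) * g⁻¹ =
          (g * x * g⁻¹) * (g * utr i j hij a * g⁻¹) * (g * x * g⁻¹)⁻¹ := by group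
      rw [this]
      exact hnorm x hx _ (hsmall i j hij a ha)
    | one => simp
    | mul x y _ _ ihx ihy =>
      have : g * (x * y) * g⁻¹ = (g * x * g⁻¹) * (g * y * g⁻¹) := by group
      rw [this]; exact mul_mem ihx ihy
    | inv x _ ih =>
      have : g * x⁻¹ * g⁻¹ = (g * x * g⁻¹)⁻¹ := by group
      rw [this]; exact inv_mem ih
  apply conj_mem_of_comm hn
  intro x₁ hx₁ x₂ hx₂
  obtain ⟨e₁, he₁, h₁, hh₁, k1⟩ := key x₁ hx₁
  have e : cm (g * x₁ * g⁻¹) (g * x₂ * g⁻¹) =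
      e₁ * (g * (cm (g⁻¹ * h₁ * g) x₂) * g⁻¹) * e₁⁻¹ *
        (e₁ * ((g * x₂ * g⁻¹) * e₁⁻¹ * (g * x₂ * g⁻¹)⁻¹)) := by
    rw [k1]
    unfold cm
    group
  rw [e]
  have h3 : g * (cm (g⁻¹ * h₁ * g) x₂) * g⁻¹ ∈ EU n R := by
    apply hF
    apply hst3 _ _ x₂ hx₂
    rw [map_mul, map_mul, hh₁, mul_one, map_inv, inv_mul_cancel]
  exact mul_mem (mul_mem (mul_mem he₁ h3) (inv_mem he₁))
    (mul_mem he₁ (hnorm x₂ hx₂ _ (inv_mem he₁)))

end Pool.Agent.V5helper35.PI
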